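import Mathlib

/-!
# Elementary bounds for oscillatory integrals
-/

open MeasureTheory Set Filter Topology

namespace Run7.h719.NV

lemma g_nn (b α : ℝ) : 0 ≤ (1 - Real.cos (b * α)) / α ^ 2 :=
  div_nonneg (by linarith [Real.cos_le_one (b * α)]) (sq_nonneg _)

lemma g_le (b α : ℝ) : (1 - Real.cos (b * α)) / α ^ 2 ≤ 2 / α ^ 2 :=
  div_le_div_of_nonneg_right (by linarith [Real.neg_one_le_cos (b * α)]) (sq_nonneg _)

lemma g_contOn (b : ℝ) {s : Set ℝ} (hs : ∀ x ∈ s, x ≠ 0) :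
    ContinuousOn (fun α => (1 - Real.cos (b * α)) / α ^ 2) s := by
  refine ContinuousOn.div (by fun_prop) (by fun_prop) fun x hx => pow_ne_zero 2 (hs x hx)

lemma ne_Icc {a c x : ℝ} (ha : 0 < a) (hx : x ∈ Icc a c) : x ≠ 0 := by
  have : 0 < x := by linarith [hx.1]
  exact this.ne'

lemma trig_deriv (b x : ℝ) : HasDerivAt (fun α : ℝ => Real.sin (b * α)) (b * Real.cos (b * x)) x := by
  have h2 : HasDerivAt (fun y : ℝ => b * y) b x := by
    simpa using (hasDerivAt_id x).const_mul b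
  have h3 := (Real.hasDerivAt_sin (b * x)).comp x h2
  exact h3.congr_deriv (by ring)

/-- lower bound of the integral over `[1, N]` -/
lemma osc_low {b : ℝ} (hb : 0 < b) {N : ℝ} (hN : 1 ≤ N) :
    1 - 2 / b - 1 / N ≤ ∫ α in (1 : ℝ)..N, (1 - Real.cos (b * α)) / α ^ 2 := by
  have hne : ∀ x ∈ Icc (1 : ℝ) N, x ≠ 0 := fun x hx => ne_Icc one_pos hx
  have hd : ∀ x ∈ Icc (1 : ℝ) N, HasDerivAt (fun α : ℝ => -α⁻¹ + (1 - Real.sin (b * α)) / b / α ^ 2)
      ((1 - Real.cos (b * x)) / x ^ 2 - 2 * (1 - Real.sin (b * x)) / (b * x ^ 3)) x := by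
    intro x hx
    have hx0 := hne x hx
    have h1 := (hasDerivAt_inv hx0).neg
    have h2 := ((((trig_deriv b x).const_sub 1).div_const b).div (hasDerivAt_pow 2 x)
      (pow_ne_zero 2 hx0))
    refine (h1.add h2).congr_deriv ?_
    push_cast
    field_simp
    ring
  have hc : ContinuousOn (fun x : ℝ => (1 - Real.cos (b * x)) / x ^ 2 -
      2 * (1 - Real.sin (b * x)) / (b * x ^ 3)) (Icc 1 N) := by
    refine (g_contOn b hne).sub ?_
    refine ContinuousOn.div (by fun_prop) (by fun_prop) fun x hx => ?_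
    exact mul_ne_zero hb.ne' (pow_ne_zero 3 (hne x hx))
  have h1 := intervalIntegral.integral_eq_sub_of_hasDerivAt (a := 1) (b := N)
    (fun x hx => hd x (by rwa [uIcc_of_le hN] at hx)) (by
      apply ContinuousOn.intervalIntegrable
      rwa [uIcc_of_le hN])
  have h2 : ∫ x in (1 : ℝ)..N, ((1 - Real.cos (b * x)) / x ^ 2 -
      2 * (1 - Real.sin (b * x)) / (b * x ^ 3)) ≤
      ∫ α in (1 : ℝ)..N, (1 - Real.cos (b * α)) / α ^ 2 := by
    refine intervalIntegral.integral_mono_on hN ?_ ?_ fun x hx => ?_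
    · apply ContinuousOn.intervalIntegrable
      rwa [uIcc_of_le hN]
    · apply ContinuousOn.intervalIntegrable
      rw [uIcc_of_le hN]
      exact g_contOn b hne
    · have hx0 : 0 < x := by linarith [hx.1]
      have h3 : 0 ≤ 2 * (1 - Real.sin (b * x)) / (b * x ^ 3) := by
        have := Real.sin_le_one (b * x)
        have : 0 ≤ 1 - Real.sin (b * x) := by linarith
        positivity
      linarith
  refine le_trans ?_ h2
  rw [h1]
  have hN0 : 0 < N := by linarith
  have h4 : 0 ≤ (1 - Real.sin (b * N)) / b / N ^ 2 := by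
    have : 0 ≤ 1 - Real.sin (b * N) := by linarith [Real.sin_le_one (b * N)]
    positivity
  have h5 : (1 - Real.sin (b * 1)) / b / 1 ^ 2 ≤ 2 / b := by
    rw [one_pow, div_one]
    apply div_le_div_of_nonneg_right _ hb.le
    linarith [Real.neg_one_le_sin (b * 1)]
  have h6 : N⁻¹ = 1 / N := (one_div N).symm
  rw [h6]
  have h7 : ((1 : ℝ))⁻¹ = 1 := inv_one
  rw [h7]
  linarith

/-- upper bound of the integral over `[3/2, N]` -/
lemma osc_up {b : ℝ} (hb : 0 < b) {N : ℝ} (hN : 3 / 2 ≤ N) :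
    ∫ α in (3 / 2 : ℝ)..N, (1 - Real.cos (b * α)) / α ^ 2 ≤
      2 / 3 + 4 / 9 * ((1 + Real.sin (b * (3 / 2))) / b) := by
  have h0 : (0 : ℝ) < 3 / 2 := by norm_num
  have hne : ∀ x ∈ Icc (3 / 2 : ℝ) N, x ≠ 0 := fun x hx => ne_Icc h0 hx
  have hd : ∀ x ∈ Icc (3 / 2 : ℝ) N, HasDerivAt (fun α : ℝ => -α⁻¹ - (1 + Real.sin (b * α)) / b / α ^ 2)
      ((1 - Real.cos (b * x)) / x ^ 2 + 2 * (1 + Real.sin (b * x)) / (b * x ^ 3)) x := by
    intro x hx
    have hx0 := hne x hx
    have h1 := (hasDerivAt_inv hx0).neg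
    have h2 := ((((trig_deriv b x).const_add 1).div_const b).div (hasDerivAt_pow 2 x)
      (pow_ne_zero 2 hx0))
    refine (h1.sub h2).congr_deriv ?_
    push_cast
    field_simp
    ring
  have hc : ContinuousOn (fun x : ℝ => (1 - Real.cos (b * x)) / x ^ 2 +
      2 * (1 + Real.sin (b * x)) / (b * x ^ 3)) (Icc (3 / 2) N) := by
    refine (g_contOn b hne).add ?_
    refine ContinuousOn.div (by fun_prop) (by fun_prop) fun x hx => ?_
    exact mul_ne_zero hb.ne' (pow_ne_zero 3 (hne x hx))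
  have h1 := intervalIntegral.integral_eq_sub_of_hasDerivAt (a := 3 / 2) (b := N)
    (fun x hx => hd x (by rwa [uIcc_of_le hN] at hx)) (by
      apply ContinuousOn.intervalIntegrable
      rwa [uIcc_of_le hN])
  have h2 : ∫ α in (3 / 2 : ℝ)..N, (1 - Real.cos (b * α)) / α ^ 2 ≤
      ∫ x in (3 / 2 : ℝ)..N, ((1 - Real.cos (b * x)) / x ^ 2 +
      2 * (1 + Real.sin (b * x)) / (b * x ^ 3)) := by
    refine intervalIntegral.integral_mono_on hN ?_ ?_ fun x hx => ?_
    · apply ContinuousOn.intervalIntegrable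
      rw [uIcc_of_le hN]
      exact g_contOn b hne
    · apply ContinuousOn.intervalIntegrable
      rwa [uIcc_of_le hN]
    · have hx0 : 0 < x := by linarith [hx.1]
      have h3 : 0 ≤ 2 * (1 + Real.sin (b * x)) / (b * x ^ 3) := by
        have := Real.neg_one_le_sin (b * x)
        have : 0 ≤ 1 + Real.sin (b * x) := by linarith
        positivity
      linarith
  refine h2.trans ?_
  rw [h1]
  have hN0 : 0 < N := by linarith
  have h4 : 0 ≤ (1 + Real.sin (b * N)) / b / N ^ 2 := by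
    have : 0 ≤ 1 + Real.sin (b * N) := by linarith [Real.neg_one_le_sin (b * N)]
    positivity
  have h5 : (1 + Real.sin (b * (3 / 2))) / b / (3 / 2) ^ 2 =
      4 / 9 * ((1 + Real.sin (b * (3 / 2))) / b) := by ring
  have h6 : 0 < N⁻¹ := inv_pos.2 hN0
  rw [h5]
  have h7 : ((3 / 2 : ℝ))⁻¹ = 2 / 3 := by norm_num
  rw [h7]
  linarith

/-- upper bound of the weighted integral over `[1, 3/2]` -/
lemma osc_mid {b : ℝ} (hb : 0 < b) :
    ∫ α in (1 : ℝ)..(3 / 2), (α - 1 / 2) * ((1 - Real.cos (b * α)) / α ^ 2) ≤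
      Real.log (3 / 2) - 1 / 6 + 1 / b - 4 / 9 * ((1 + Real.sin (b * (3 / 2))) / b) := by
  have h13 : (1 : ℝ) ≤ 3 / 2 := by norm_num
  have hne : ∀ x ∈ Icc (1 : ℝ) (3 / 2), x ≠ 0 := fun x hx => ne_Icc one_pos hx
  have hd : ∀ x ∈ Icc (1 : ℝ) (3 / 2), HasDerivAt (fun α : ℝ => Real.log α + 1 / 2 * α⁻¹ -
      (α - 1 / 2) * ((1 + Real.sin (b * α)) / b / α ^ 2))
      ((x - 1 / 2) * ((1 - Real.cos (b * x)) / x ^ 2) +
        (x - 1) * (1 + Real.sin (b * x)) / (b * x ^ 3)) x := by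
    intro x hx
    have hx0 := hne x hx
    have h1 := (Real.hasDerivAt_log hx0).add ((hasDerivAt_inv hx0).const_mul (1 / 2))
    have h2 := ((((trig_deriv b x).const_add 1).div_const b).div (hasDerivAt_pow 2 x)
      (pow_ne_zero 2 hx0))
    have h3 := ((hasDerivAt_id x).sub_const (1 / 2)).mul h2
    refine (h1.sub h3).congr_deriv ?_
    simp only [id, Pi.div_apply]
    push_cast
    field_simp
    ring
  have hc : ContinuousOn (fun x : ℝ => (x - 1 / 2) * ((1 - Real.cos (b * x)) / x ^ 2) +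
        (x - 1) * (1 + Real.sin (b * x)) / (b * x ^ 3)) (Icc 1 (3 / 2)) := by
    refine ((Continuous.continuousOn (by fun_prop)).mul (g_contOn b hne)).add ?_
    refine ContinuousOn.div (by fun_prop) (by fun_prop) fun x hx => ?_
    exact mul_ne_zero hb.ne' (pow_ne_zero 3 (hne x hx))
  have h1 := intervalIntegral.integral_eq_sub_of_hasDerivAt (a := 1) (b := 3 / 2)
    (fun x hx => hd x (by rwa [uIcc_of_le h13] at hx)) (by
      apply ContinuousOn.intervalIntegrable
      rwa [uIcc_of_le h13])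
  have h2 : ∫ α in (1 : ℝ)..(3 / 2), (α - 1 / 2) * ((1 - Real.cos (b * α)) / α ^ 2) ≤
      ∫ x in (1 : ℝ)..(3 / 2), ((x - 1 / 2) * ((1 - Real.cos (b * x)) / x ^ 2) +
        (x - 1) * (1 + Real.sin (b * x)) / (b * x ^ 3)) := by
    refine intervalIntegral.integral_mono_on h13 ?_ ?_ fun x hx => ?_
    · apply ContinuousOn.intervalIntegrable
      rw [uIcc_of_le h13]
      exact (Continuous.continuousOn (by fun_prop)).mul (g_contOn b hne)
    · apply ContinuousOn.intervalIntegrable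
      rwa [uIcc_of_le h13]
    · have hx0 : 0 < x := by linarith [hx.1]
      have h3 : 0 ≤ (x - 1) * (1 + Real.sin (b * x)) / (b * x ^ 3) := by
        have := Real.neg_one_le_sin (b * x)
        have h4 : 0 ≤ 1 + Real.sin (b * x) := by linarith
        have h5 : 0 ≤ x - 1 := by linarith [hx.1]
        positivity
      linarith
  refine h2.trans ?_
  rw [h1, Real.log_one]
  have h5 : (1 + Real.sin (b * 1)) / b / 1 ^ 2 ≤ 2 / b := by
    rw [one_pow, div_one]
    apply div_le_div_of_nonneg_right _ hb.le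
    linarith [Real.sin_le_one (b * 1)]
  have h6 : (3 / 2 - 1 / 2 : ℝ) * ((1 + Real.sin (b * (3 / 2))) / b / (3 / 2) ^ 2) =
      4 / 9 * ((1 + Real.sin (b * (3 / 2))) / b) := by ring
  rw [h6]
  have h7 : ((3 / 2 : ℝ))⁻¹ = 2 / 3 := by norm_num
  have h8 : ((1 : ℝ))⁻¹ = 1 := inv_one
  rw [h7, h8]
  have h9 : 2 / b = 2 * (1 / b) := by ring
  rw [h9] at h5
  linarith

/-- the lower bound of the whole integral -/
lemma osc_low_Ioi {b : ℝ} (hb : 0 < b)
    (hi : IntegrableOn (fun α => (1 - Real.cos (b * α)) / α ^ 2) (Ioi 1)) :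
    1 - 2 / b ≤ ∫ α in Ioi (1 : ℝ), (1 - Real.cos (b * α)) / α ^ 2 := by
  have h1 := intervalIntegral_tendsto_integral_Ioi 1 hi tendsto_id
  have h2 : Tendsto (fun N : ℝ => 1 - 2 / b - 1 / N) atTop (𝓝 (1 - 2 / b - 0)) := by
    refine tendsto_const_nhds.sub ?_
    exact tendsto_const_nhds.div_atTop tendsto_id
  rw [sub_zero] at h2
  exact le_of_tendsto_of_tendsto h2 h1 ((eventually_ge_atTop 1).mono fun N hN => osc_low hb hN)

/-- the upper bound of the weighted integral -/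
lemma osc_up_Ioi {b : ℝ} (hb : 0 < b)
    (hi : IntegrableOn (fun α => (1 - Real.cos (b * α)) / α ^ 2) (Ioi 1)) :
    (∫ α in Ioi (1 : ℝ), (1 - Real.cos (b * α)) / α ^ 2) -
      (∫ α in (1 : ℝ)..(3 / 2), (3 / 2 - α) * ((1 - Real.cos (b * α)) / α ^ 2)) ≤
      Real.log (3 / 2) + 1 / 2 + 1 / b := by
  have h13 : (1 : ℝ) ≤ 3 / 2 := by norm_num
  have hne : ∀ x ∈ Icc (1 : ℝ) (3 / 2), x ≠ 0 := fun x hx => ne_Icc one_pos hx
  have hi2 := hi.mono_set (Ioi_subset_Ioi h13)
  have hs := intervalIntegral.integral_interval_add_Ioi hi hi2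
  have h1 := intervalIntegral_tendsto_integral_Ioi (3 / 2) hi2 tendsto_id
  have h2 := le_of_tendsto h1 ((eventually_ge_atTop (3 / 2)).mono fun N hN => osc_up hb hN)
  have h3 := osc_mid hb
  have c1 : IntervalIntegrable (fun α => (1 - Real.cos (b * α)) / α ^ 2) volume 1 (3 / 2) := by
    apply ContinuousOn.intervalIntegrable
    rw [uIcc_of_le h13]
    exact g_contOn b hne
  have c2 : IntervalIntegrable (fun α => (3 / 2 - α) * ((1 - Real.cos (b * α)) / α ^ 2))
      volume 1 (3 / 2) := by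
    apply ContinuousOn.intervalIntegrable
    rw [uIcc_of_le h13]
    exact (Continuous.continuousOn (by fun_prop)).mul (g_contOn b hne)
  have h4 : (∫ α in (1 : ℝ)..(3 / 2), (1 - Real.cos (b * α)) / α ^ 2) -
      (∫ α in (1 : ℝ)..(3 / 2), (3 / 2 - α) * ((1 - Real.cos (b * α)) / α ^ 2)) =
      ∫ α in (1 : ℝ)..(3 / 2), (α - 1 / 2) * ((1 - Real.cos (b * α)) / α ^ 2) := by
    rw [← intervalIntegral.integral_sub c1 c2]
    refine intervalIntegral.integral_congr fun α _ => ?_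
    ring
  linarith

end Run7.h719.NV
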