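import Pool.Agent.Run7.h719.NV.Wt
import Pool.Agent.Run7.h719.NV.Osc

/-!
# Assembly: deterministic bounds
-/

open MeasureTheory Set Filter Topology

namespace Run7.h719.NV

open Run7.h719.PC
open Pool.Agent.Y749.Rig (fl tr mn mn_cont mn_nonneg mn_le mn_even)

lemma osc_ch {b h : ℝ} (hb : 0 < b) (hh : 0 < h) :
    ∫ α in (0 : ℝ)..h, α * (1 / h ^ 2 * (3 / 4 - α / h / 4) * Real.cos (b * α)) ≤ 1 / (h * b) := by
  have hd : ∀ x ∈ uIcc (0 : ℝ) h, HasDerivAt (fun α : ℝ =>
      1 / h ^ 2 * (3 / 4 * α - α ^ 2 / h / 4) * ((1 + Real.sin (b * α)) / b))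
      (x * (1 / h ^ 2 * (3 / 4 - x / h / 4) * Real.cos (b * x)) +
        1 / h ^ 2 * (3 / 4 - x / h / 2) * ((1 + Real.sin (b * x)) / b)) x := by
    intro x _
    have h1 : HasDerivAt (fun α : ℝ => 1 / h ^ 2 * (3 / 4 * α - α ^ 2 / h / 4))
        (1 / h ^ 2 * (3 / 4 - x / h / 2)) x := by
      have h2 := (((hasDerivAt_id x).const_mul (3 / 4)).sub
        (((hasDerivAt_pow 2 x).div_const h).div_const 4)).const_mul (1 / h ^ 2)
      refine h2.congr_deriv ?_
      push_cast
      ring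
    have h2 := ((trig_deriv b x).const_add 1).div_const b
    refine (h1.mul h2).congr_deriv ?_
    field_simp
    ring
  have h1 := intervalIntegral.integral_eq_sub_of_hasDerivAt hd (by
      apply Continuous.intervalIntegrable; fun_prop)
  have h2 : ∫ α in (0 : ℝ)..h, α * (1 / h ^ 2 * (3 / 4 - α / h / 4) * Real.cos (b * α)) ≤
      ∫ x in (0 : ℝ)..h, (x * (1 / h ^ 2 * (3 / 4 - x / h / 4) * Real.cos (b * x)) +
        1 / h ^ 2 * (3 / 4 - x / h / 2) * ((1 + Real.sin (b * x)) / b)) := by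
    refine intervalIntegral.integral_mono_on hh.le ?_ ?_ fun x hx => ?_
    · apply Continuous.intervalIntegrable; fun_prop
    · apply Continuous.intervalIntegrable; fun_prop
    · have h3 : 0 ≤ 1 + Real.sin (b * x) := by linarith [Real.neg_one_le_sin (b * x)]
      have h4 : x / h ≤ 1 := (div_le_one hh).2 hx.2
      have h5 : 0 ≤ 3 / 4 - x / h / 2 := by linarith
      have : 0 ≤ 1 / h ^ 2 * (3 / 4 - x / h / 2) * ((1 + Real.sin (b * x)) / b) := by positivity
      linarith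
  refine h2.trans ?_
  rw [h1]
  have h3 : (1 + Real.sin (b * h)) / b ≤ 2 / b := by
    apply div_le_div_of_nonneg_right _ hb.le
    linarith [Real.sin_le_one (b * h)]
  have h4 : 1 / h ^ 2 * (3 / 4 * h - h ^ 2 / h / 4) = 1 / (2 * h) := by
    field_simp
    ring
  have h5 : 1 / h ^ 2 * (3 / 4 * 0 - 0 ^ 2 / h / 4) = 0 := by ring
  rw [h4, h5, zero_mul, sub_zero]
  calc 1 / (2 * h) * ((1 + Real.sin (b * h)) / b) ≤ 1 / (2 * h) * (2 / b) := by gcongr
    _ = 1 / (h * b) := by field_simp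

lemma half {g : ℝ → ℝ} (hg : Integrable g) (ge : ∀ x, g (-x) = g x) (h : ℝ) :
    ∫ α, g α = 2 * ((∫ α in (0 : ℝ)..h, g α) + ∫ α in Ioi h, g α) := by
  have h1 : ∫ α, g α = 2 * ∫ α in Ioi (0 : ℝ), g α := by
    rw [← integral_comp_abs (f := g)]
    refine integral_congr_ae (ae_of_all _ fun α => ?_)
    show g α = g |α|
    rcases le_total 0 α with h | h
    · rw [abs_of_nonneg h]
    · rw [abs_of_nonpos h, ge]
  rw [h1, intervalIntegral.integral_interval_add_Ioi hg.integrableOn hg.integrableOn]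

/-- the upper bound of the tail -/
lemma up_det {f : ℝ → ℝ} (f0 : ∀ x, 0 ≤ f x) (fe : ∀ x, f (-x) = f x) {β h : ℝ}
    (hβ : 0 < β) (hh : 0 < h) (hw : Integrable fun α => wb β α * f α)
    (hch : Integrable fun α => ch h α * Real.cos (2 * Real.pi * β * α) * f α)
    (hpos : 0 ≤ ∫ α, ch h α * Real.cos (2 * Real.pi * β * α) * f α)
    (hi : IntegrableOn (fun α => aa h α * f α) (Ioi h)) :
    ∫ α in Ioi h, wb β α * f α ≤ 1 / (2 * Real.pi ^ 2) * (2 * (∫ α in Ioi h, aa h α * f α) +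
      ∫ α in (0 : ℝ)..h, ch h α * Real.cos (2 * Real.pi * β * α) * f α) := by
  have h1 := half hch (fun x => by
    show ch h (-x) * Real.cos (2 * Real.pi * β * -x) * f (-x) = _
    rw [ch_even, fe, mul_neg, Real.cos_neg]) h
  have h2 : -(∫ α in (0 : ℝ)..h, ch h α * Real.cos (2 * Real.pi * β * α) * f α) ≤
      ∫ α in Ioi h, ch h α * Real.cos (2 * Real.pi * β * α) * f α := by linarith
  have hi2 := hi.const_mul 2
  have hc2 : IntegrableOn (fun α => ch h α * Real.cos (2 * Real.pi * β * α) * f α) (Ioi h) :=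
    hch.integrableOn
  have h3 : ∫ α in Ioi h, wb β α * f α ≤ ∫ α in Ioi h, 1 / (2 * Real.pi ^ 2) *
      (2 * (aa h α * f α) - ch h α * Real.cos (2 * Real.pi * β * α) * f α) := by
    refine setIntegral_mono_on hw.integrableOn ((hi2.sub hc2).const_mul _) measurableSet_Ioi
      fun α hα => ?_
    have hα0 : 0 < α := lt_trans hh hα
    rw [wb_eq hβ hα0.ne', mul_assoc]
    apply mul_le_mul_of_nonneg_left _ (by positivity)
    have h4 : (1 - Real.cos (2 * Real.pi * β * α)) / α ^ 2 ≤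
        2 * aa h α - ch h α * Real.cos (2 * Real.pi * β * α) := by
      have h5 := ch_le hh hα0
      have h6 := Real.neg_one_le_cos (2 * Real.pi * β * α)
      have h7 : 0 ≤ (1 / α ^ 2 - ch h α) * (1 + Real.cos (2 * Real.pi * β * α)) :=
        mul_nonneg (by linarith) (by linarith)
      unfold aa
      have h8 : (1 - Real.cos (2 * Real.pi * β * α)) / α ^ 2 =
          1 / α ^ 2 - 1 / α ^ 2 * Real.cos (2 * Real.pi * β * α) := by ring
      rw [h8]
      linarith
    have := mul_le_mul_of_nonneg_right h4 (f0 α)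
    linarith
  refine h3.trans ?_
  rw [integral_const_mul]
  apply mul_le_mul_of_nonneg_left _ (by positivity)
  rw [integral_sub hi2 hc2, integral_const_mul]
  linarith

lemma wb_on {β : ℝ} (hβ : 0 < β) {a : ℝ} (ha : 0 < a) :
    IntegrableOn (fun α => (1 - Real.cos (2 * Real.pi * β * α)) / α ^ 2) (Ioi a) := by
  have h1 := ((wb_int hβ).const_mul (2 * Real.pi ^ 2)).integrableOn (s := Ioi a)
  refine h1.congr_fun (fun α hα => ?_) measurableSet_Ioi
  have hα0 : 0 < α := lt_trans ha hα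
  show 2 * Real.pi ^ 2 * wb β α = _
  rw [wb_eq hβ hα0.ne']
  have := Real.pi_pos
  field_simp

lemma wb_on_eq {β : ℝ} (hβ : 0 < β) {a : ℝ} (ha : 0 < a) :
    ∫ α in Ioi a, wb β α = 1 / (2 * Real.pi ^ 2) *
      ∫ α in Ioi a, (1 - Real.cos (2 * Real.pi * β * α)) / α ^ 2 := by
  rw [← integral_const_mul]
  refine setIntegral_congr_fun measurableSet_Ioi fun α hα => ?_
  have hα0 : 0 < α := lt_trans ha hα
  exact wb_eq hβ hα0.ne'

lemma wb_mn_int {β : ℝ} (hβ : 0 < β) : Integrable fun α => wb β α * mn α := by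
  refine (wb_int hβ).mul_bdd (c := 1) mn_cont.aestronglyMeasurable (ae_of_all _ fun x => ?_)
  rw [Real.norm_eq_abs, abs_of_nonneg (mn_nonneg x)]
  exact mn_le x

lemma wb_mn_one {β : ℝ} : ∫ α in Ioi (1 : ℝ), wb β α * mn α = ∫ α in Ioi (1 : ℝ), wb β α := by
  refine setIntegral_congr_fun measurableSet_Ioi fun α hα => ?_
  have h1 : (1 : ℝ) < α := hα
  show wb β α * mn α = wb β α
  unfold mn
  rw [min_eq_right (by rw [abs_of_pos (by linarith)]; exact h1.le), mul_one]

/-- lower bound of the expected tail -/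
lemma mn_low {β h : ℝ} (hβ : 0 < β) (hh : 0 < h) (hh1 : h ≤ 1) :
    1 / (2 * Real.pi ^ 2) * (1 - 2 / (2 * Real.pi * β)) ≤ ∫ α in Ioi h, wb β α * mn α := by
  have hi := wb_mn_int hβ
  have h1 : ∫ α in Ioi (1 : ℝ), wb β α * mn α ≤ ∫ α in Ioi h, wb β α * mn α := by
    refine setIntegral_mono_set hi.integrableOn ?_ (Ioi_subset_Ioi hh1).eventuallyLE
    exact ae_of_all _ fun α => mul_nonneg (wb_nonneg hβ α) (mn_nonneg α)
  refine le_trans ?_ h1
  rw [wb_mn_one, wb_on_eq hβ one_pos]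
  apply mul_le_mul_of_nonneg_left _ (by positivity)
  exact osc_low_Ioi (by positivity) (wb_on hβ one_pos)

/-- `wb ≤ 1/π²` beyond `1/2` -/
lemma wb_le {β : ℝ} (hβ : 0 < β) {α : ℝ} (hα : 0 < α) : wb β α ≤ 1 / Real.pi ^ 2 * (1 / α ^ 2) := by
  rw [wb_eq hβ hα.ne']
  have h1 := g_le (2 * Real.pi * β) α
  calc 1 / (2 * Real.pi ^ 2) * ((1 - Real.cos (2 * Real.pi * β * α)) / α ^ 2) ≤
      1 / (2 * Real.pi ^ 2) * (2 / α ^ 2) := by gcongr
    _ = _ := by
      have := Real.pi_pos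
      field_simp

/-- upper bound of the expected tail, with the gain -/
lemma mn_up {β h : ℝ} (hβ : 0 < β) (hh : 1 / 2 ≤ h) (hh1 : h ≤ 1) :
    (∫ α in Ioi h, wb β α * mn α) - ∫ α in (1 : ℝ)..(3 / 2), wb β α * (3 / 2 - α) ≤
      1 / (2 * Real.pi ^ 2) * (Real.log (3 / 2) + 1 / 2 + 1 / (2 * Real.pi * β)) +
        4 / Real.pi ^ 2 * (1 - h) := by
  have hi := wb_mn_int hβ
  have hs := intervalIntegral.integral_interval_add_Ioi (a := h) (b := 1)
    (hi.integrableOn (s := Ioi h)) (hi.integrableOn (s := Ioi 1))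
  have hc : Continuous fun α => wb β α * mn α := (wb_cont hβ).mul mn_cont
  have h1 : ∫ α in h..1, wb β α * mn α ≤ 4 / Real.pi ^ 2 * (1 - h) := by
    have h2 : ∫ α in h..1, wb β α * mn α ≤ ∫ α in h..1, 4 / Real.pi ^ 2 := by
      refine intervalIntegral.integral_mono_on hh1 (hc.intervalIntegrable _ _)
        (by simp) fun α hα => ?_
      have hα0 : 1 / 2 ≤ α := hh.trans hα.1
      have h3 := wb_le hβ (show 0 < α by linarith)
      have h4 : 1 / α ^ 2 ≤ 4 := by
        rw [div_le_iff₀ (by positivity)]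
        nlinarith
      have h5 : wb β α * mn α ≤ wb β α := mul_le_of_le_one_right (wb_nonneg hβ α) (mn_le α)
      calc _ ≤ wb β α := h5
        _ ≤ 1 / Real.pi ^ 2 * (1 / α ^ 2) := h3
        _ ≤ 1 / Real.pi ^ 2 * 4 := by gcongr
        _ = _ := by ring
    rw [intervalIntegral.integral_const, smul_eq_mul] at h2
    linarith
  have h2 := osc_up_Ioi (b := 2 * Real.pi * β) (by positivity) (wb_on hβ one_pos)
  have h3 : ∫ α in (1 : ℝ)..(3 / 2), wb β α * (3 / 2 - α) = 1 / (2 * Real.pi ^ 2) *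
      ∫ α in (1 : ℝ)..(3 / 2), (3 / 2 - α) * ((1 - Real.cos (2 * Real.pi * β * α)) / α ^ 2) := by
    rw [← intervalIntegral.integral_const_mul]
    refine intervalIntegral.integral_congr fun α hα => ?_
    rw [uIcc_of_le (by norm_num)] at hα
    have : α ≠ 0 := by
      have : 0 < α := by linarith [hα.1]
      exact this.ne'
    show wb β α * (3 / 2 - α) = _
    rw [wb_eq hβ this]
    ring
  rw [← hs, wb_mn_one, wb_on_eq hβ one_pos, h3]
  have h4 := mul_le_mul_of_nonneg_left h2 (show 0 ≤ 1 / (2 * Real.pi ^ 2) by positivity)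
  linarith

/-- the lower bound of the tail -/
lemma low_det {f : ℝ → ℝ} (hf : Continuous f) (f0 : ∀ x, 0 ≤ f x) {β h : ℝ}
    (hβ : 0 < β) (hh : 0 < h) (hh1 : h ≤ 1) (hw : Integrable fun α => wb β α * f α)
    {ε : ℝ} (hε : 0 < ε) (hB : ∀ α ∈ Icc (1 : ℝ) (3 / 2), 3 / 2 - α - ε ≤ f α) :
    (∫ α in (1 : ℝ)..(3 / 2), wb β α * (3 / 2 - α)) - ε ≤ ∫ α in Ioi h, wb β α * f α := by
  have h1 : ∫ α in (1 : ℝ)..(3 / 2), wb β α * f α ≤ ∫ α in Ioi h, wb β α * f α := by
    rw [intervalIntegral.integral_of_le (by norm_num)]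
    refine setIntegral_mono_set hw.integrableOn ?_ ?_
    · exact ae_of_all _ fun α => mul_nonneg (wb_nonneg hβ α) (f0 α)
    · refine LE.le.eventuallyLE fun α hα => ?_
      exact lt_of_le_of_lt hh1 hα.1
  refine le_trans ?_ h1
  have hc1 : Continuous fun α => wb β α * (3 / 2 - α) := (wb_cont hβ).mul (by fun_prop)
  have hc2 : Continuous fun α => wb β α * f α := (wb_cont hβ).mul hf
  have h2 : ∫ α in (1 : ℝ)..(3 / 2), (wb β α * (3 / 2 - α) - ε) ≤
      ∫ α in (1 : ℝ)..(3 / 2), wb β α * f α := by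
    refine intervalIntegral.integral_mono_on (by norm_num)
      ((hc1.sub continuous_const).intervalIntegrable _ _) (hc2.intervalIntegrable _ _)
      fun α hα => ?_
    have h3 := mul_le_mul_of_nonneg_left (hB α hα) (wb_nonneg hβ α)
    have h4 : wb β α ≤ 1 := by
      have h5 := wb_le hβ (show 0 < α by linarith [hα.1])
      have h6 : 1 / Real.pi ^ 2 ≤ 1 := by
        rw [div_le_one (by positivity)]
        nlinarith [Real.pi_gt_three]
      have h7 : 1 / α ^ 2 ≤ 1 := by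
        have := hα.1
        rw [div_le_one (by positivity)]
        nlinarith
      calc wb β α ≤ 1 / Real.pi ^ 2 * (1 / α ^ 2) := h5
        _ ≤ 1 * 1 := by gcongr
        _ = 1 := by ring
    have h5 : wb β α * ε ≤ 1 * ε := mul_le_mul_of_nonneg_right h4 hε.le
    nlinarith
  rw [intervalIntegral.integral_sub (hc1.intervalIntegrable _ _) (by simp),
    intervalIntegral.integral_const, smul_eq_mul] at h2
  linarith

end Run7.h719.NV
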