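import Pool.Agent.Y749.Rig.FFc

/-!
# Mean squares of the number of zeros in short intervals
-/

open MeasureTheory Set Filter Topology

namespace Run7.h719.NV

open Pool.Agent.Y749.Rig
open H370 (mult good_zeta NN NN_mono zset zcount)

/-- the number of zeros of `ZZ T` with ordinate in `(t, t + h]` -/
noncomputable def cnt (T h t : ℝ) : ℝ :=
  ∑ s ∈ ZZ T, mm s * (Ico (s.im - h) s.im).indicator (fun _ => (1 : ℝ)) t

lemma ind_nn (h γ t : ℝ) : 0 ≤ (Ico (γ - h) γ).indicator (fun _ => (1 : ℝ)) t :=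
  indicator_nonneg (fun _ _ => zero_le_one) _

lemma cnt_nonneg (T h t : ℝ) : 0 ≤ cnt T h t :=
  Finset.sum_nonneg fun s _ => mul_nonneg (mm_nonneg s) (ind_nn _ _ _)

lemma ind_int (a b : ℝ) : Integrable ((Ico a b).indicator fun _ => (1 : ℝ)) :=
  (integrable_indicator_iff measurableSet_Ico).2 (integrableOn_const (by simp))

lemma ind_val (a b : ℝ) : ∫ t, (Ico a b).indicator (fun _ => (1 : ℝ)) t = max 0 (b - a) := by
  rw [integral_indicator measurableSet_Ico, setIntegral_const, smul_eq_mul, mul_one,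
    Real.volume_real_Ico, max_comm]

lemma cnt_int (T h : ℝ) : Integrable (cnt T h) := by
  unfold cnt
  exact integrable_finsetSum _ fun s _ => (ind_int _ _).const_mul _

lemma cnt_val (T : ℝ) {h : ℝ} (hh : 0 ≤ h) : ∫ t, cnt T h t = h * ∑ s ∈ ZZ T, mm s := by
  unfold cnt
  rw [integral_finsetSum _ fun s _ => (ind_int _ _).const_mul _, Finset.mul_sum]
  refine Finset.sum_congr rfl fun s _ => ?_
  rw [integral_const_mul, ind_val, show s.im - (s.im - h) = h by ring, max_eq_right hh, mul_comm]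

lemma sq_eq (T h t : ℝ) : cnt T h t ^ 2 = ∑ s ∈ ZZ T, ∑ s' ∈ ZZ T, mm s * mm s' *
    (Ico (max (s.im - h) (s'.im - h)) (min s.im s'.im)).indicator (fun _ => (1 : ℝ)) t := by
  unfold cnt
  rw [sq, Finset.sum_mul_sum]
  refine Finset.sum_congr rfl fun s _ => Finset.sum_congr rfl fun s' _ => ?_
  have h1 : Ico (max (s.im - h) (s'.im - h)) (min s.im s'.im) =
      Ico (s.im - h) s.im ∩ Ico (s'.im - h) s'.im := by
    rw [Ico_inter_Ico]
  have h2 : (Ico (s.im - h) s.im ∩ Ico (s'.im - h) s'.im).indicator (fun _ => (1 : ℝ)) t =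
      (Ico (s.im - h) s.im).indicator (fun _ => (1 : ℝ)) t *
        (Ico (s'.im - h) s'.im).indicator (fun _ => (1 : ℝ)) t := by
    by_cases a : t ∈ Ico (s.im - h) s.im
    · by_cases b : t ∈ Ico (s'.im - h) s'.im
      · rw [indicator_of_mem a, indicator_of_mem b, indicator_of_mem (mem_inter a b), mul_one]
      · rw [indicator_of_notMem b, indicator_of_notMem (fun h => b h.2), mul_zero]
    · rw [indicator_of_notMem a, indicator_of_notMem (fun h => a h.1), zero_mul]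
  rw [h1, h2]
  ring

lemma sq_int (T h : ℝ) : Integrable fun t => cnt T h t ^ 2 := by
  simp_rw [sq_eq]
  exact integrable_finsetSum _ fun s _ => integrable_finsetSum _ fun s' _ =>
    (ind_int _ _).const_mul _

lemma sq_val (T h : ℝ) : ∫ t, cnt T h t ^ 2 =
    ∑ s ∈ ZZ T, ∑ s' ∈ ZZ T, mm s * mm s' * max 0 (h - |s.im - s'.im|) := by
  simp_rw [sq_eq]
  rw [integral_finsetSum _ fun s _ => integrable_finsetSum _ fun s' _ =>
    (ind_int _ _).const_mul _]
  refine Finset.sum_congr rfl fun s _ => ?_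
  rw [integral_finsetSum _ fun s' _ => (ind_int _ _).const_mul _]
  refine Finset.sum_congr rfl fun s' _ => ?_
  rw [integral_const_mul, ind_val]
  congr 2
  rcases le_total s.im s'.im with h1 | h1
  · rw [min_eq_left h1, max_eq_right (by linarith), abs_of_nonpos (by linarith)]
    ring
  · rw [min_eq_right h1, max_eq_left (by linarith), abs_of_nonneg (by linarith)]
    ring

/-- the ordinates are bounded below -/
lemma low_ord : ∃ m : ℝ, 0 < m ∧ ∀ T : ℝ, ∀ s ∈ ZZ T, m ≤ s.im := by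
  classical
  rcases (ZZ 1).eq_empty_or_nonempty with h | h
  · refine ⟨1, one_pos, fun T s hs => ?_⟩
    by_contra hcon
    push Not at hcon
    have : s ∈ ZZ 1 := by
      rw [mem_ZZ] at hs ⊢
      exact ⟨hs.1, hs.2.1, hs.2.2.1, hs.2.2.2.1, hcon.le⟩
    rw [h] at this
    simp at this
  · obtain ⟨s0, hs0, hmin⟩ := Finset.exists_min_image (ZZ 1) (fun s => s.im) h
    have hp := zs_im_pos (mem_ZZ.1 hs0)
    refine ⟨min 1 s0.im, lt_min one_pos hp, fun T s hs => ?_⟩
    rcases le_or_gt s.im 1 with h1 | h1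
    · have : s ∈ ZZ 1 := by
        rw [mem_ZZ] at hs ⊢
        exact ⟨hs.1, hs.2.1, hs.2.2.1, hs.2.2.2.1, h1⟩
      exact (min_le_right _ _).trans (hmin s this)
    · exact (min_le_left _ _).trans h1.le

lemma cnt_supp {m : ℝ} (hm : ∀ T : ℝ, ∀ s ∈ ZZ T, m ≤ s.im) {T h t : ℝ} (hh : h < m)
    (ht : t ∉ Ioc 0 T) : cnt T h t = 0 := by
  unfold cnt
  refine Finset.sum_eq_zero fun s hs => ?_
  rw [indicator_of_notMem, mul_zero]
  intro h1
  apply ht
  have h2 := hm T s hs
  have h3 : s.im ≤ T := (mem_ZZ.1 hs).2.2.2.2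
  exact ⟨by linarith [h1.1], by linarith [h1.2]⟩

/-- the number of zeros in `(t, t + h]` -/
lemma NN_cnt {t h U : ℝ} (ht : 0 ≤ t) (hU : t + h ≤ U) : (NN riemannZeta t (t + h) : ℝ) = cnt U h t := by
  classical
  have h1 : zset riemannZeta t (t + h) =
      (((ZZ U).filter fun s => t < s.im ∧ s.im ≤ t + h : Finset ℂ) : Set ℂ) := by
    ext s
    rw [Finset.coe_filter]
    simp only [mem_ofPred_eq, mem_ZZ]
    unfold zset zs
    simp only [mem_ofPred_eq]
    constructor
    · rintro ⟨h1, h2, h3, h4, h5⟩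
      exact ⟨⟨h5, h1, h2, by linarith, by linarith⟩, h3, h4⟩
    · rintro ⟨⟨h5, h1, h2, _, _⟩, h3, h4⟩
      exact ⟨h1, h2, h3, h4, h5⟩
  unfold NN
  rw [h1, finsum_mem_coe_finset]
  push_cast
  unfold cnt
  rw [Finset.sum_filter]
  refine Finset.sum_congr rfl fun s _ => ?_
  by_cases h2 : t < s.im ∧ s.im ≤ t + h
  · rw [if_pos h2, indicator_of_mem (show t ∈ Ico (s.im - h) s.im from
      ⟨by linarith [h2.2], h2.1⟩), mul_one]
    rfl
  · rw [if_neg h2, indicator_of_notMem, mul_zero]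
    intro h3
    exact h2 ⟨h3.2, by linarith [h3.1]⟩

lemma cnt_mono {T U : ℝ} (hTU : T ≤ U) (h t : ℝ) : cnt T h t ≤ cnt U h t := by
  unfold cnt
  exact Finset.sum_le_sum_of_subset_of_nonneg (ZZ_mono hTU) fun s _ _ =>
    mul_nonneg (mm_nonneg s) (ind_nn _ _ _)

/-- comparison of the integrals -/
lemma edge {f g : ℝ → ℝ} {T h Z : ℝ} (hh : 0 ≤ h) (hT : h ≤ T) (hf : Integrable f)
    (f0 : ∀ t, 0 ≤ f t) (fs : ∀ t, t ∉ Ioc 0 T → f t = 0)
    (hg : IntervalIntegrable g volume 0 T) (h1 : ∀ t ∈ Icc 0 (T - h), g t = f t)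
    (h2 : ∀ t ∈ Icc 0 T, f t ≤ g t) (h3 : ∀ t ∈ Icc (T - h) T, g t ≤ Z) :
    ∫ t, f t ≤ ∫ t in (0 : ℝ)..T, g t ∧ ∫ t in (0 : ℝ)..T, g t ≤ (∫ t, f t) + h * Z := by
  have hT0 : 0 ≤ T := hh.trans hT
  have e : ∫ t, f t = ∫ t in (0 : ℝ)..T, f t := by
    rw [intervalIntegral.integral_of_le hT0]
    exact (setIntegral_eq_integral_of_forall_compl_eq_zero fs).symm
  constructor
  · rw [e]
    exact intervalIntegral.integral_mono_on hT0 hf.intervalIntegrable hg fun t ht => h2 t ht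
  · have hg1 : IntervalIntegrable g volume 0 (T - h) :=
      hg.mono_set (by rw [uIcc_of_le (by linarith), uIcc_of_le hT0]; exact Icc_subset_Icc_right (by linarith))
    have hg2 : IntervalIntegrable g volume (T - h) T :=
      hg.mono_set (by rw [uIcc_of_le (by linarith), uIcc_of_le hT0]; exact Icc_subset_Icc_left (by linarith))
    rw [← intervalIntegral.integral_add_adjacent_intervals hg1 hg2]
    have e1 : ∫ t in (0 : ℝ)..(T - h), g t = ∫ t in (0 : ℝ)..(T - h), f t := by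
      refine intervalIntegral.integral_congr fun t ht => ?_
      rw [uIcc_of_le (by linarith)] at ht
      exact h1 t ht
    have e2 : ∫ t in (0 : ℝ)..(T - h), f t ≤ ∫ t, f t := by
      rw [intervalIntegral.integral_of_le (by linarith)]
      exact setIntegral_le_integral hf (ae_of_all _ f0)
    have e3 : ∫ t in (T - h)..T, g t ≤ ∫ _t in (T - h)..T, Z :=
      intervalIntegral.integral_mono_on (by linarith) hg2 (by simp) h3
    rw [intervalIntegral.integral_const, smul_eq_mul] at e3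
    rw [e1]
    have e4 : (T - (T - h)) * Z = h * Z := by ring
    rw [e4] at e3
    linarith

/-- the mean square over `[0, T]` -/
theorem mean_sq {m : ℝ} (hm0 : m ≤ 1) (hm : ∀ T : ℝ, ∀ s ∈ ZZ T, m ≤ s.im) {T h β : ℝ}
    (hh : 0 < h) (hhm : h < m) (hT : 2 ≤ T) (hβ : 0 ≤ β) :
    (∫ t, cnt T h t ^ 2) - 2 * β * (h * (∑ s ∈ ZZ T, mm s) + h * NN riemannZeta (T - 1) (T + 1)) +
        T * β ^ 2 ≤ ∫ t in (0 : ℝ)..T, ((NN riemannZeta t (t + h) : ℝ) - β) ^ 2 ∧
    ∫ t in (0 : ℝ)..T, ((NN riemannZeta t (t + h) : ℝ) - β) ^ 2 ≤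
      (∫ t, cnt T h t ^ 2) + h * (NN riemannZeta (T - 1) (T + 1) : ℝ) ^ 2 -
        2 * β * (h * ∑ s ∈ ZZ T, mm s) + T * β ^ 2 := by
  have hT0 : 0 ≤ T := by linarith
  obtain ⟨Z, hZ⟩ : ∃ Z : ℝ, Z = NN riemannZeta (T - 1) (T + 1) := ⟨_, rfl⟩
  rw [← hZ]
  have hZ0 : 0 ≤ Z := by rw [hZ]; exact Nat.cast_nonneg _
  -- the comparison function
  have g1 : ∀ t ∈ Icc 0 T, (NN riemannZeta t (t + h) : ℝ) = cnt (T + h) h t := fun t ht =>
    NN_cnt ht.1 (by linarith [ht.2])
  have g2 : ∀ t ∈ Icc 0 (T - h), cnt (T + h) h t = cnt T h t := fun t ht => by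
    rw [← g1 t ⟨ht.1, by linarith [ht.2]⟩]
    exact NN_cnt ht.1 (by linarith [ht.2])
  have g3 : ∀ t ∈ Icc (T - h) T, cnt (T + h) h t ≤ Z := fun t ht => by
    have h0 : 0 ≤ t := by linarith [ht.1]
    rw [← g1 t ⟨h0, ht.2⟩, hZ]
    have := NN_mono good_zeta (a := t) (b := t + h) (a' := T - 1) (b' := T + 1) (by linarith)
      (by linarith [ht.1]) (by linarith [ht.2])
    exact_mod_cast this
  have q1 := edge hh.le (by linarith) (cnt_int T h) (cnt_nonneg T h)
    (fun t ht => cnt_supp hm hhm ht) (cnt_int (T + h) h).intervalIntegrable g2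
    (fun t _ => cnt_mono (by linarith) h t) g3
  have q2 := edge (f := fun t => cnt T h t ^ 2) (g := fun t => cnt (T + h) h t ^ 2)
    (Z := Z ^ 2) hh.le (by linarith) (sq_int T h) (fun t => sq_nonneg _)
    (fun t ht => by
      show cnt T h t ^ 2 = 0
      rw [cnt_supp hm hhm ht]; ring) (sq_int (T + h) h).intervalIntegrable
    (fun t ht => by
      show cnt (T + h) h t ^ 2 = cnt T h t ^ 2
      rw [g2 t ht])
    (fun t _ => pow_le_pow_left₀ (cnt_nonneg T h t) (cnt_mono (by linarith) h t) 2)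
    (fun t ht => pow_le_pow_left₀ (cnt_nonneg _ _ _) (g3 t ht) 2)
  rw [cnt_val T hh.le] at q1
  have e1 : ∫ t in (0 : ℝ)..T, ((NN riemannZeta t (t + h) : ℝ) - β) ^ 2 =
      (∫ t in (0 : ℝ)..T, cnt (T + h) h t ^ 2) - 2 * β * (∫ t in (0 : ℝ)..T, cnt (T + h) h t) +
        T * β ^ 2 := by
    have i1 : IntervalIntegrable (fun t => cnt (T + h) h t ^ 2) volume 0 T :=
      (sq_int (T + h) h).intervalIntegrable
    have i2 : IntervalIntegrable (fun t => 2 * β * cnt (T + h) h t) volume 0 T :=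
      (cnt_int (T + h) h).intervalIntegrable.const_mul _
    rw [← intervalIntegral.integral_const_mul, ← intervalIntegral.integral_sub i1 i2]
    have e2 : T * β ^ 2 = ∫ _t in (0 : ℝ)..T, β ^ 2 := by
      rw [intervalIntegral.integral_const, smul_eq_mul, sub_zero]
    rw [e2, ← intervalIntegral.integral_add (i1.sub i2) (by simp)]
    refine intervalIntegral.integral_congr fun t ht => ?_
    rw [uIcc_of_le hT0] at ht
    show ((NN riemannZeta t (t + h) : ℝ) - β) ^ 2 = _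
    rw [g1 t ht]
    ring
  rw [e1]
  obtain ⟨a1, a2⟩ := q1
  obtain ⟨b1, b2⟩ := q2
  have k1 := mul_le_mul_of_nonneg_left a1 (show 0 ≤ 2 * β by positivity)
  have k2 := mul_le_mul_of_nonneg_left a2 (show 0 ≤ 2 * β by positivity)
  constructor <;> linarith

end Run7.h719.NV
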