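import Pool.Agent.Run7.h719.NV.Main
import Pool.Agent.Run7.h719.NV.Time

/-!
# The number variance
-/

open MeasureTheory Set Filter Topology

namespace Run7.h719.NV

open Pool.Agent.Y749.Rig
open H370 (mult good_zeta NN NN_mono zset zcount)

/-- the mean square of the finite counting function is the pair sum of the tent -/
lemma sq_pair {T β : ℝ} (hT : 10 ≤ T) (hβ : 0 < β) :
    1 / T * ∫ t, cnt T (2 * Real.pi * β / Real.log T) t ^ 2 = β ^ 2 * ∫ x, tr β x ∂(Mp T) := by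
  have hL := one_lt_log (show 3 ≤ T by linarith)
  have hL0 : 0 < Real.log T := by linarith
  have hpi := Real.pi_pos
  have hT0 : 0 < T := by linarith
  rw [sq_val, Mp_integral hT]
  unfold RR nT
  rw [Finset.mul_sum, Finset.sum_div, Finset.mul_sum]
  refine Finset.sum_congr rfl fun s _ => ?_
  rw [Finset.mul_sum, Finset.sum_div, Finset.mul_sum]
  refine Finset.sum_congr rfl fun s' _ => ?_
  have h1 := tent_eq hβ ((s.im - s'.im) * Real.log T / (2 * Real.pi))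
  have h2 : max 0 (β - |(s.im - s'.im) * Real.log T / (2 * Real.pi)|) =
      Real.log T / (2 * Real.pi) * max 0 (2 * Real.pi * β / Real.log T - |s.im - s'.im|) := by
    rw [mul_max_of_nonneg _ _ (by positivity), mul_zero]
    congr 1
    rw [abs_div, abs_mul, abs_of_pos hL0, abs_of_pos (show 0 < 2 * Real.pi by positivity)]
    field_simp
  rw [h2] at h1
  have h3 : β ^ 2 * (mm s * mm s' * tr β ((s.im - s'.im) * Real.log T / (2 * Real.pi)) /
      (T * Real.log T / (2 * Real.pi))) = mm s * mm s' / (T * Real.log T / (2 * Real.pi)) *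
      (β ^ 2 * tr β ((s.im - s'.im) * Real.log T / (2 * Real.pi))) := by ring
  rw [h3, h1]
  field_simp

lemma sum_mm (T : ℝ) : ∑ s ∈ ZZ T, mm s = (NN riemannZeta 0 T : ℝ) := by
  rw [ZZ_eq]
  exact Pool.Agent.Y744.sum_Zt T

lemma tr_qd {β : ℝ} (hβ : 0 < β) : QD (tr β) := by
  obtain ⟨M, hM0, hM⟩ := (adm_tr hβ).bdd
  refine ⟨M * (1 + β ^ 2), fun x => ?_⟩
  rcases le_or_gt β |x| with h | h
  · rw [tr_supp hβ x h, abs_zero]
    positivity
  · rw [le_div_iff₀ (by positivity)]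
    have h1 : x ^ 2 ≤ β ^ 2 := by
      rw [← sq_abs x]
      exact pow_le_pow_left₀ (abs_nonneg _) h.le 2
    have h2 := hM x
    have h3 := abs_nonneg (tr β x)
    apply mul_le_mul h2 (by linarith) (by positivity) hM0

/-- the pairing with the form factor -/
lemma pair_lim {β : ℝ} (hβ : 0 < β) :
    Tendsto (fun T => (∫ α, wb β α * Fr T α) - β ^ 2 * ∫ x, tr β x ∂(Mp T)) atTop (𝓝 0) := by
  have h1 := (ww_remove (tr_cont β) (tr_qd hβ)).const_mul (β ^ 2)
  rw [mul_zero] at h1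
  refine h1.congr fun T => ?_
  have h2 : ∫ α, wb β α * Fr T α = β ^ 2 * ∫ α, fl (tr β) α * Fr T α := by
    rw [← integral_const_mul]
    refine integral_congr_ae (ae_of_all _ fun α => ?_)
    show wb β α * Fr T α = _
    unfold wb
    ring
  rw [h2, Fr_pair (fl_int (adm_tr hβ))]
  simp_rw [inv_four (adm_tr hβ)]
  ring

theorem nv (RH : RiemannHypothesis)
    (hB : ∀ ε : ℝ, 0 < ε → ∀ᶠ T in atTop, ∀ α ∈ Icc (1 : ℝ) (3 / 2), 3 / 2 - α - ε ≤ Fr T α)
    {β : ℝ} (hβ : 0 < β) :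
    ∀ᶠ T in atTop,
      (β - 2 * ∫ x in (0 : ℝ)..β, (β - x) * (Real.sin (Real.pi * x) / (Real.pi * x)) ^ 2) -
        92 / 1000 - 17 / 1000 / β ≤
        1 / T * ∫ t in (0 : ℝ)..T, ((NN riemannZeta t (t + 2 * Real.pi * β / Real.log T) : ℝ) - β) ^ 2 ∧
      1 / T * ∫ t in (0 : ℝ)..T, ((NN riemannZeta t (t + 2 * Real.pi * β / Real.log T) : ℝ) - β) ^ 2 ≤
      (β - 2 * ∫ x in (0 : ℝ)..β, (β - x) * (Real.sin (Real.pi * x) / (Real.pi * x)) ^ 2) +
        168 / 1000 + 5 / 100 / β := by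
  obtain ⟨m', hm'0, hm'⟩ := low_ord
  obtain ⟨m, hmd⟩ : ∃ m : ℝ, m = min m' 1 := ⟨_, rfl⟩
  have hm0 : 0 < m := by rw [hmd]; exact lt_min hm'0 one_pos
  have hm1 : m ≤ 1 := by rw [hmd]; exact min_le_right _ _
  have hm : ∀ T : ℝ, ∀ s ∈ ZZ T, m ≤ s.im := fun T s hs => by
    rw [hmd]; exact (min_le_left _ _).trans (hm' T s hs)
  obtain ⟨C, hC, hz⟩ := zcount good_zeta
  obtain ⟨ε, hε⟩ : ∃ ε : ℝ, ε = 1 / 100000 / (2 + 2 * β + 2 * β ^ 2) := ⟨_, rfl⟩
  have hε0 : 0 < ε := by rw [hε]; positivity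
  have hεs : ε * (2 + 2 * β + 2 * β ^ 2) = 1 / 100000 := by
    rw [hε]
    field_simp
  obtain ⟨T0, hT0, hNT⟩ := Pool.Agent.W54.TCF.NT_asymp' ε hε0
  have hpi := Real.pi_pos
  have hlogT : ∀ᶠ T : ℝ in atTop, 2 * Real.pi * β / m < Real.log T :=
    Real.tendsto_log_atTop.eventually_gt_atTop _
  have hlog2 : ∀ᶠ T : ℝ in atTop, Real.log T ≤ ε / (2 * Real.pi * β * (C + C ^ 2)) * T := by
    have h1 := Real.isLittleO_log_id_atTop.def (show 0 < ε / (2 * Real.pi * β * (C + C ^ 2)) by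
      positivity)
    filter_upwards [h1, eventually_gt_atTop 1] with T h2 h3
    rw [Real.norm_eq_abs, Real.norm_eq_abs, id, abs_of_pos (Real.log_pos h3),
      abs_of_pos (by linarith)] at h2
    exact h2
  have hq := (pair_lim hβ).eventually (Metric.closedBall_mem_nhds (0 : ℝ) hε0)
  filter_upwards [pair_bounds RH hB hβ, hlogT, hlog2, hq, eventually_ge_atTop T0] with
    T h1 h2 h3 h4 h5
  have hT : 10 ≤ T := hT0.trans h5
  have hTp : 0 < T := by linarith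
  have hL := one_lt_log (show 3 ≤ T by linarith)
  have hL0 : 0 < Real.log T := by linarith
  obtain ⟨h, hh⟩ : ∃ h : ℝ, h = 2 * Real.pi * β / Real.log T := ⟨_, rfl⟩
  have hh0 : 0 < h := by rw [hh]; positivity
  have hhm : h < m := by
    rw [hh, div_lt_iff₀ hL0]
    rw [div_lt_iff₀ hm0] at h2
    linarith
  obtain ⟨a1, a2⟩ := mean_sq hm1 hm hh0 hhm (show 2 ≤ T by linarith) hβ.le
  rw [sum_mm] at a1 a2
  obtain ⟨n1, n2⟩ := hNT T h5
  have hz' := hz T (by linarith)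
  obtain ⟨Z, hZ⟩ : ∃ Z : ℝ, Z = NN riemannZeta (T - 1) (T + 1) := ⟨_, rfl⟩
  rw [← hZ] at a1 a2 hz'
  have hZ0 : 0 ≤ Z := by rw [hZ]; exact Nat.cast_nonneg _
  obtain ⟨N, hN⟩ : ∃ N : ℝ, N = NN riemannZeta 0 T := ⟨_, rfl⟩
  rw [← hN] at a1 a2 n1 n2
  obtain ⟨S, hS⟩ : ∃ S : ℝ, S = ∫ t, cnt T h t ^ 2 := ⟨_, rfl⟩
  have hSQ : 1 / T * S = β ^ 2 * ∫ x, tr β x ∂(Mp T) := by
    rw [hS, hh]
    exact sq_pair hT hβ
  rw [← hS] at a1 a2
  rw [← hh]
  obtain ⟨V, hV⟩ : ∃ V : ℝ, V = ∫ t in (0 : ℝ)..T, ((NN riemannZeta t (t + h) : ℝ) - β) ^ 2 :=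
    ⟨_, rfl⟩
  rw [← hV] at a1 a2 ⊢
  -- the small terms
  have z1 : h * Z ≤ 2 * Real.pi * β * C := by
    calc h * Z ≤ h * (C * Real.log T) := by gcongr
      _ = 2 * Real.pi * β * C := by rw [hh]; field_simp
  have z2 : h * Z ^ 2 ≤ 2 * Real.pi * β * C ^ 2 * Real.log T := by
    calc h * Z ^ 2 ≤ h * (C * Real.log T) ^ 2 := by gcongr
      _ = 2 * Real.pi * β * C ^ 2 * Real.log T := by rw [hh]; field_simp
  have z3 : 2 * Real.pi * β * (C + C ^ 2) * Real.log T ≤ ε * T := by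
    have := mul_le_mul_of_nonneg_left h3 (show 0 ≤ 2 * Real.pi * β * (C + C ^ 2) by positivity)
    refine this.trans (le_of_eq ?_)
    field_simp
  have z4 : h * Z ≤ ε * T := by
    refine z1.trans (le_trans ?_ z3)
    have : 2 * Real.pi * β * C * 1 ≤ 2 * Real.pi * β * (C + C ^ 2) * Real.log T := by
      apply mul_le_mul _ hL.le (by norm_num) (by positivity)
      have : 0 ≤ 2 * Real.pi * β * C ^ 2 := by positivity
      linarith
    linarith
  have z5 : h * Z ^ 2 ≤ ε * T := by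
    refine z2.trans (le_trans ?_ z3)
    apply mul_le_mul_of_nonneg_right _ hL0.le
    have : 0 ≤ 2 * Real.pi * β * C := by positivity
    linarith
  have hX : h * (T / (2 * Real.pi) * Real.log T) = β * T := by
    rw [hh]
    field_simp
  have n1' : (1 - ε) * (β * T) ≤ h * N := by
    have := mul_le_mul_of_nonneg_left n1 hh0.le
    calc (1 - ε) * (β * T) = h * ((1 - ε) * (T / (2 * Real.pi) * Real.log T)) := by
          rw [← hX]; ring
      _ ≤ _ := this
  have n2' : h * N ≤ (1 + ε) * (β * T) := by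
    have := mul_le_mul_of_nonneg_left n2 hh0.le
    calc h * N ≤ h * ((1 + ε) * (T / (2 * Real.pi) * Real.log T)) := this
      _ = _ := by rw [← hX]; ring
  have v1 : V ≤ S - T * β ^ 2 + ε * (1 + 2 * β ^ 2) * T := by
    have := mul_le_mul_of_nonneg_left n1' (show 0 ≤ 2 * β by positivity)
    nlinarith
  have v2 : S - T * β ^ 2 - ε * (2 * β + 2 * β ^ 2) * T ≤ V := by
    have k1 := mul_le_mul_of_nonneg_left n2' (show 0 ≤ 2 * β by positivity)
    have k2 := mul_le_mul_of_nonneg_left z4 (show 0 ≤ 2 * β by positivity)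
    nlinarith
  have w1 : 1 / T * V ≤ 1 / T * S - β ^ 2 + ε * (1 + 2 * β ^ 2) := by
    have := mul_le_mul_of_nonneg_left v1 (show 0 ≤ 1 / T by positivity)
    refine this.trans (le_of_eq ?_)
    field_simp
  have w2 : 1 / T * S - β ^ 2 - ε * (2 * β + 2 * β ^ 2) ≤ 1 / T * V := by
    have := mul_le_mul_of_nonneg_left v2 (show 0 ≤ 1 / T by positivity)
    refine le_trans (le_of_eq ?_) this
    field_simp
  rw [hSQ] at w1 w2
  rw [Real.dist_eq, sub_zero, abs_le] at h4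
  rw [gue_eq hβ]
  have hb1 : 0 ≤ ε * (1 + 2 * β) := by positivity
  have hb2 : 0 ≤ ε * 2 := by positivity
  have k1 : ε * (1 + 2 * β ^ 2) ≤ 1 / 100000 := by
    rw [← hεs]
    apply mul_le_mul_of_nonneg_left _ hε0.le
    nlinarith
  have k2 : ε * (2 * β + 2 * β ^ 2) ≤ 1 / 100000 := by
    rw [← hεs]
    apply mul_le_mul_of_nonneg_left _ hε0.le
    nlinarith
  have k3 : ε ≤ 1 / 100000 := by nlinarith
  constructor
  · linarith [h1.1, h4.1, h4.2]
  · linarith [h1.2, h4.1, h4.2]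

end Run7.h719.NV
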