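import Pool.Agent.Run7.h719.NV.Asm
import Pool.Agent.Run7.h719.PC.Zeta

/-!
# The bounds for the pair sums of the zeros
-/

open MeasureTheory Set Filter Topology

namespace Run7.h719.NV

open Run7.h719.PC
open Pool.Agent.Y749.Rig (fl tr mn mn_cont mn_nonneg mn_le mn_even Fr Fr_cont Fr_even Fr_nonneg)

lemma wb_Fr_int {β : ℝ} (hβ : 0 < β) (T : ℝ) : Integrable fun α => wb β α * Fr T α := by
  obtain ⟨C, hC⟩ := Fr_bdd T
  exact (wb_int hβ).mul_bdd (c := C) (Fr_cont T).aestronglyMeasurable (ae_of_all _ fun α => hC α)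

theorem pair_bounds (RH : RiemannHypothesis)
    (hB : ∀ ε : ℝ, 0 < ε → ∀ᶠ T in atTop, ∀ α ∈ Icc (1 : ℝ) (3 / 2), 3 / 2 - α - ε ≤ Fr T α)
    {β : ℝ} (hβ : 0 < β) :
    ∀ᶠ T in atTop,
      -(919 / 10000) - 17 / 1000 / β ≤
        (∫ α, wb β α * Fr T α) - β ^ 2 - (∫ α, wb β α * mn α) ∧
      (∫ α, wb β α * Fr T α) - β ^ 2 - (∫ α, wb β α * mn α) ≤ 1675 / 10000 + 5 / 100 / β := by
  obtain ⟨h, hh⟩ : ∃ h : ℝ, h = 9999 / 10000 := ⟨_, rfl⟩
  have hpos : 0 < h := by rw [hh]; norm_num
  have hlt : h < 1 := by rw [hh]; norm_num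
  obtain ⟨η, hη⟩ : ∃ η : ℝ, η = 1 / 100000 := ⟨_, rfl⟩
  have hη0 : 0 < η := by rw [hη]; norm_num
  have hG := fam RH
  obtain ⟨b, hb⟩ : ∃ b : ℝ, b = 2 * Real.pi * β := ⟨_, rfl⟩
  have hb0 : 0 < b := by rw [hb]; have := Real.pi_pos; positivity
  -- the limits
  obtain ⟨w', hw'c, hw'⟩ := wb_deriv hβ
  have t0 := hG.weight0 hpos hlt (w := wb β) (w' := w') (fun x _ => hw' x) hw'c.continuousOn
  rw [wb_zero hβ] at t0
  have t1 := (hG.tent h hpos hlt).const_mul 2
  have t2 := hG.mass hpos hlt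
  have t3 := hG.mass (b := h / 2) (by positivity) (by linarith)
  have t4 := hG.first hpos hlt
  have t5 := hG.first (b := h / 2) (by positivity) (by linarith)
  have t6 := hG.weight0 hpos hlt
    (w := fun x => 1 / h ^ 2 * (3 / 4 - x / h / 4) * Real.cos (b * x))
    (w' := fun x => 1 / h ^ 2 * (-(1 / h / 4)) * Real.cos (b * x) +
      1 / h ^ 2 * (3 / 4 - x / h / 4) * (-(b * Real.sin (b * x)))) (fun x _ => by
        have h1 : HasDerivAt (fun x : ℝ => 1 / h ^ 2 * (3 / 4 - x / h / 4))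
            (1 / h ^ 2 * (-(1 / h / 4))) x := by
          have h2 := ((((hasDerivAt_id x).div_const h).div_const 4).const_sub (3 / 4)).const_mul
            (1 / h ^ 2)
          exact h2.congr_deriv (by ring)
        have h2 : HasDerivAt (fun y : ℝ => b * y) b x := by
          simpa using (hasDerivAt_id x).const_mul b
        have h3 := (Real.hasDerivAt_cos (b * x)).comp x h2
        refine (h1.mul h3).congr_deriv ?_
        simp only [Function.comp_apply]
        ring) (by fun_prop)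
  have v6 : 1 / h ^ 2 * (3 / 4 - 0 / h / 4) * Real.cos (b * 0) / 2 = 3 / 8 / h ^ 2 := by
    rw [mul_zero, Real.cos_zero, zero_div, zero_div]
    ring
  rw [v6] at t6
  have o6 := osc_ch hb0 hpos
  have up : ∀ {g : ℝ → ℝ} {c : ℝ}, Tendsto g atTop (𝓝 c) → ∀ᶠ T in atTop, g T ≤ c + η :=
    fun ht => ht.eventually (ge_mem_nhds (by linarith))
  have lo : ∀ {g : ℝ → ℝ} {c : ℝ}, Tendsto g atTop (𝓝 c) → ∀ᶠ T in atTop, c - η ≤ g T :=
    fun ht => ht.eventually (le_mem_nhds (by linarith))
  have hψ := mod_int (ch_int hpos) β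
  have hψ0 := mod_fl_nonneg (ch_int hpos) (ch_fl_nonneg hpos) β
  have hP := pos_pair hψ hψ0 (ε := 1 / 2) (by norm_num)
  have hS : 0 ≤ ∫ α, ch h α * Real.cos (2 * Real.pi * β * α) := by
    have := hψ0 0
    unfold fl at this
    simpa using this
  filter_upwards [hG.nn, up t0, lo t0, up t1, lo t2, up t3, up t4, lo t5, up t6, hP, hB η hη0]
    with T hn a0 a0' a1 a2 a3 a4 a5 a6 a7 a8
  have hc := hG.cont T
  have hw := wb_Fr_int hβ T
  have hm := wb_mn_int hβ
  have e1 := half hw (fun x => by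
    show wb β (-x) * Fr T (-x) = _
    rw [wb_even, Fr_even]) h
  have e2 := half hm (fun x => by
    show wb β (-x) * mn (-x) = _
    rw [wb_even, mn_even]) h
  have e3 : ∫ α in (0 : ℝ)..h, wb β α * mn α = ∫ α in (0 : ℝ)..h, α * wb β α := by
    refine intervalIntegral.integral_congr fun α hα => ?_
    rw [uIcc_of_le hpos.le] at hα
    show wb β α * mn α = _
    unfold mn
    rw [abs_of_nonneg hα.1, min_eq_left (by linarith [hα.2]), mul_comm]
  rw [e3] at e2
  have hpi := Real.pi_pos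
  have hpi1 : 3.1415 < Real.pi := by have := Real.pi_gt_d4; linarith
  have hpi2 : Real.pi < 3.1416 := by have := Real.pi_lt_d4; linarith
  have hq1 : Real.pi ^ 2 ≤ 98697 / 10000 := by nlinarith
  have hq2 : 98690 / 10000 ≤ Real.pi ^ 2 := by nlinarith
  have hr : 1 / Real.pi ^ 2 ≤ 10133 / 100000 := by
    rw [div_le_iff₀ (by positivity)]
    nlinarith
  have hbb : 1 / b ≤ 1592 / 10000 / β := by
    rw [hb, div_le_div_iff₀ (by positivity) hβ]
    nlinarith
  have hb1 : 0 < 1 / b := by positivity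
  refine ⟨?_, ?_⟩
  · -- the lower bound
    have h1 := low_det hc hn hβ hpos hlt.le hw hη0 a8
    have h2 := mn_up hβ (h := h) (by rw [hh]; norm_num) hlt.le
    rw [← hb] at h2
    have hl : Real.log (3 / 2) ≤ 0.4054651086 := by
      rw [Real.log_div (by norm_num) (by norm_num)]
      have h3 := Real.log_three_lt_d9
      have h2 := Real.log_two_gt_d9
      linarith
    have h3 : 1 / (2 * Real.pi ^ 2) * (Real.log (3 / 2) + 1 / 2 + 1 / b) +
        4 / Real.pi ^ 2 * (1 - h) ≤ 1 / 2 * (91840 / 1000000 + 17 / 1000 / β) := by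
      have e4 : 1 / (2 * Real.pi ^ 2) * (Real.log (3 / 2) + 1 / 2 + 1 / b) +
        4 / Real.pi ^ 2 * (1 - h) = 1 / Real.pi ^ 2 * (1 / 2 * (Real.log (3 / 2) + 1 / 2 + 1 / b) +
          4 * (1 - h)) := by
        field_simp
      rw [e4]
      have hlog : 0 < Real.log (3 / 2) := Real.log_pos (by norm_num)
      have h5 : 1 / 2 * (Real.log (3 / 2) + 1 / 2 + 1 / b) + 4 * (1 - h) ≤
          1 / 2 * (9054652 / 10000000) + 1 / 2 * (1592 / 10000 / β) + 4 / 10000 := by
        have hl' : Real.log (3 / 2) ≤ 40546511 / 100000000 := by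
          norm_num at hl ⊢
          linarith
        rw [hh]
        linarith
      have h6 : 0 ≤ 1 / 2 * (Real.log (3 / 2) + 1 / 2 + 1 / b) + 4 * (1 - h) := by
        have : 0 ≤ 1 - h := by linarith
        positivity
      calc _ ≤ 10133 / 100000 * (1 / 2 * (9054652 / 10000000) + 1 / 2 * (1592 / 10000 / β) +
            4 / 10000) := by
            apply mul_le_mul hr h5 h6 (by norm_num)
        _ ≤ _ := by
            have h7 : 0 < 1 / β := by positivity
            have e5 : 1592 / 10000 / β = 1592 / 10000 * (1 / β) := by ring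
            have e6 : 17 / 1000 / β = 17 / 1000 * (1 / β) := by ring
            rw [e5, e6]
            nlinarith
    rw [hη] at *
    linarith
  · -- the upper bound
    have hA0 : 0 ≤ 2 * ∫ α in (0 : ℝ)..h, (h - α) * Fr T α := by
      have : 0 ≤ ∫ α in (0 : ℝ)..h, (h - α) * Fr T α :=
        intervalIntegral.integral_nonneg hpos.le fun α hα =>
          mul_nonneg (by linarith [hα.2]) (hn α)
      linarith
    have a11 : ∀ b, TM h (Fr T) b ≤ 2 * ∫ α in (0 : ℝ)..h, (h - α) * Fr T α := by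
      intro b
      rw [← tt_total hc (Fr_even T) hpos]
      exact shift hpos T b
    obtain ⟨b1, b2⟩ := up_Ioi2 hc hn hpos hA0 a11
    rw [known2 hc (Fr_even T) hpos] at b2
    obtain ⟨C, hC⟩ := Fr_bdd T
    have hch : Integrable fun α => ch h α * Real.cos (2 * Real.pi * β * α) * Fr T α :=
      hψ.mul_bdd (c := C) (Fr_cont T).aestronglyMeasurable (ae_of_all _ fun α => hC α)
    have hpos' : 0 ≤ ∫ α, ch h α * Real.cos (2 * Real.pi * β * α) * Fr T α := by
      refine le_trans ?_ a7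
      have : (0 : ℝ) ≤ 1 - 1 / 2 := by norm_num
      exact mul_nonneg this hS
    have h1 := up_det hn (Fr_even T) hβ hpos hw hch hpos' b1
    have e5 : ∫ α in (0 : ℝ)..h, ch h α * Real.cos (2 * Real.pi * β * α) * Fr T α =
        ∫ α in (0 : ℝ)..h, 1 / h ^ 2 * (3 / 4 - α / h / 4) * Real.cos (b * α) * Fr T α := by
      refine intervalIntegral.integral_congr fun α hα => ?_
      rw [uIcc_of_le hpos.le] at hα
      show ch h α * _ * _ = _
      rw [ch_small hpos hα.1 (by linarith [hα.2]), hb]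
    rw [e5] at h1
    have h2 := mn_low hβ hpos hlt.le
    rw [← hb] at h2
    -- numerics
    have p3 : 9997 / 10000 ≤ h ^ 3 ∧ h ^ 3 ≤ 1 ∧ 9998 / 10000 ≤ h ^ 2 ∧ h ^ 2 ≤ 1 := by
      rw [hh]
      norm_num
    obtain ⟨p3, p3', s1, s2⟩ := p3
    have hinv : 1 / h ^ 3 ≤ 10004 / 10000 := by
      rw [div_le_iff₀ (by positivity)]
      linarith
    have hinv1 : 0 < 1 / h ^ 3 := by positivity
    have hπ : 11 / 18 + Real.pi ^ 2 / 12 ≤ 14336 / 10000 := by linarith
    have c1 : (11 / 18 + Real.pi ^ 2 / 12) * (2 * ∫ α in (0 : ℝ)..h, (h - α) * Fr T α) ≤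
        14336 / 10000 * (13334 / 10000) := by
      apply mul_le_mul hπ _ hA0 (by norm_num)
      rw [hη] at a1
      linarith
    have c2 : 13 / 12 * (9999 / 10000) * (9998 / 10000) ≤
        13 / 12 * h * ∫ α in (0 : ℝ)..h, Fr T α := by
      have h6 : 9998 / 10000 ≤ ∫ α in (0 : ℝ)..h, Fr T α := by
        rw [hη] at a2
        linarith
      apply mul_le_mul _ h6 (by norm_num) (by positivity)
      rw [hh]
    have c3 : 13 / 36 * h * (∫ α in (0 : ℝ)..(h / 2), Fr T α) ≤ 13 / 36 * (6251 / 10000) := by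
      have h5 : ∫ α in (0 : ℝ)..(h / 2), Fr T α ≤ 6251 / 10000 := by
        rw [hη] at a3
        have : (1 + (h / 2) ^ 2) / 2 = 1 / 2 + h ^ 2 / 8 := by ring
        linarith
      have h6 : 0 ≤ ∫ α in (0 : ℝ)..(h / 2), Fr T α :=
        intervalIntegral.integral_nonneg (by positivity) fun α _ => hn α
      apply mul_le_mul _ h5 h6 (by norm_num)
      linarith
    have c4 : (∫ α in (0 : ℝ)..h, α * Fr T α) ≤ 3334 / 10000 := by
      rw [hη] at a4
      linarith
    have c5 : 416 / 10000 ≤ ∫ α in (0 : ℝ)..(h / 2), α * Fr T α := by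
      rw [hη] at a5
      have : (h / 2) ^ 3 / 3 = h ^ 3 / 24 := by ring
      rw [this] at a5
      linarith
    have c6 : ∫ α in Ioi h, aa h α * Fr T α ≤ 1136 / 1000 := by
      refine b2.trans ?_
      rw [← mul_sub]
      calc _ ≤ 1 / h ^ 3 * (11354 / 10000) := by
            apply mul_le_mul_of_nonneg_left _ hinv1.le
            linarith
        _ ≤ 10004 / 10000 * (11354 / 10000) := by gcongr
        _ ≤ _ := by norm_num
    have c7 : 3 / 8 / h ^ 2 ≤ 3751 / 10000 := by
      rw [div_le_iff₀ (by positivity)]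
      linarith
    have c8 : 1 / (h * b) ≤ 10002 / 10000 * (1 / b) := by
      have : 1 / (h * b) = 1 / h * (1 / b) := by field_simp
      rw [this]
      have h9 : 1 / h ≤ 10002 / 10000 := by
        rw [div_le_iff₀ hpos, hh]
        norm_num
      gcongr
    have h3 : 1 / (2 * Real.pi ^ 2) * (2 * (∫ α in Ioi h, aa h α * Fr T α) +
        ∫ α in (0 : ℝ)..h, 1 / h ^ 2 * (3 / 4 - α / h / 4) * Real.cos (b * α) * Fr T α) -
        1 / (2 * Real.pi ^ 2) * (1 - 2 / b) ≤ 1 / 2 * (1674 / 10000 + 5 / 100 / β) := by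
      rw [← mul_sub]
      have e6 : (2 : ℝ) / b = 2 * (1 / b) := by ring
      have h4 : 2 * (∫ α in Ioi h, aa h α * Fr T α) +
          (∫ α in (0 : ℝ)..h, 1 / h ^ 2 * (3 / 4 - α / h / 4) * Real.cos (b * α) * Fr T α) -
          (1 - 2 / b) ≤ 16472 / 10000 + 4777 / 10000 / β := by
        rw [e6]
        have e7 : 4777 / 10000 / β = 4777 / 1592 * (1592 / 10000 / β) := by ring
        rw [e7]
        have h10 : (30002 / 10000) * (1 / b) ≤ 4777 / 1592 * (1592 / 10000 / β) := by
          have : 0 < 1592 / 10000 / β := by positivity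
          nlinarith
        rw [hη] at a6
        linarith
      have e8 : 1 / (2 * Real.pi ^ 2) = 1 / 2 * (1 / Real.pi ^ 2) := by
        field_simp
      rw [e8, mul_assoc]
      apply mul_le_mul_of_nonneg_left _ (by norm_num)
      have h11 : 1 / Real.pi ^ 2 * (2 * (∫ α in Ioi h, aa h α * Fr T α) +
          (∫ α in (0 : ℝ)..h, 1 / h ^ 2 * (3 / 4 - α / h / 4) * Real.cos (b * α) * Fr T α) -
          (1 - 2 / b)) ≤ 1 / Real.pi ^ 2 * (16472 / 10000 + 4777 / 10000 / β) := by
        gcongr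
      refine h11.trans ?_
      calc 1 / Real.pi ^ 2 * (16472 / 10000 + 4777 / 10000 / β) ≤
            10133 / 100000 * (16472 / 10000 + 4777 / 10000 / β) := by gcongr
        _ ≤ _ := by
            have h7 : 0 < 1 / β := by positivity
            have e5 : 4777 / 10000 / β = 4777 / 10000 * (1 / β) := by ring
            have e6 : 5 / 100 / β = 5 / 100 * (1 / β) := by ring
            rw [e5, e6]
            nlinarith
    rw [hη] at a0
    linarith

end Run7.h719.NV
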