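import Pool.Agent.Y749.Rig.FFc

/-!
# The weight `χ(α) = 6 ∫_0^{1/2} s (1 - |s α|)₊ ds`

`χ(α) = 3/4 - |α|/4` for `|α| ≤ 2` and `χ(α) = α⁻²` for `|α| ≥ 2`; its cosine transform is
nonnegative.
-/

open MeasureTheory Set Filter Topology

namespace Run7.h719.NV

open Pool.Agent.Y749.Rig

/-- the weight -/
noncomputable def chi (α : ℝ) : ℝ := 6 * ∫ s in (0 : ℝ)..(1 / 2), s * tr 1 (s * α)

lemma tr1_eq (x : ℝ) : tr 1 x = max 0 (1 - |x|) := by unfold tr; rw [div_one, div_one]

lemma tr1_nn (x : ℝ) : 0 ≤ tr 1 x := tr_nonneg one_pos x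

lemma tr1_le (x : ℝ) : tr 1 x ≤ 1 := by
  rw [tr1_eq]
  exact max_le (by norm_num) (by linarith [abs_nonneg x])

lemma chi_even (α : ℝ) : chi (-α) = chi α := by
  unfold chi
  simp_rw [mul_neg, tr_even]

lemma chi_nonneg (α : ℝ) : 0 ≤ chi α := by
  unfold chi
  refine mul_nonneg (by norm_num) (intervalIntegral.integral_nonneg (by norm_num) fun s hs => ?_)
  exact mul_nonneg hs.1 (tr1_nn _)

lemma chi_cont : Continuous chi := by
  unfold chi
  refine continuous_const.mul ?_
  refine intervalIntegral.continuous_parametric_intervalIntegral_of_continuous' ?_ _ _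
  have := tr_cont 1
  show Continuous fun p : ℝ × ℝ => p.2 * tr 1 (p.2 * p.1)
  fun_prop

lemma poly_int (α c : ℝ) : ∫ s in (0 : ℝ)..c, s * (1 - s * α) = c ^ 2 / 2 - α * c ^ 3 / 3 := by
  have hd : ∀ t ∈ uIcc (0 : ℝ) c, HasDerivAt (fun s : ℝ => 1 / 2 * s ^ 2 - α / 3 * s ^ 3)
      (t * (1 - t * α)) t := by
    intro t _
    have hp : ∀ n : ℕ, HasDerivAt (fun t : ℝ => t ^ n) (n * t ^ (n - 1)) t := fun n =>
      hasDerivAt_pow n t
    have := ((hp 2).const_mul (1 / 2)).sub ((hp 3).const_mul (α / 3))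
    exact this.congr_deriv (by push_cast; ring)
  rw [intervalIntegral.integral_eq_sub_of_hasDerivAt hd (by
    apply Continuous.intervalIntegrable; fun_prop)]
  ring

lemma chi_small {α : ℝ} (h0 : 0 ≤ α) (h2 : α ≤ 2) : chi α = 3 / 4 - α / 4 := by
  unfold chi
  have e1 : ∫ s in (0 : ℝ)..(1 / 2), s * tr 1 (s * α) =
      ∫ s in (0 : ℝ)..(1 / 2), s * (1 - s * α) := by
    refine intervalIntegral.integral_congr fun s hs => ?_
    rw [uIcc_of_le (by norm_num)] at hs
    show s * tr 1 (s * α) = _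
    rw [tr1_eq, abs_of_nonneg (mul_nonneg hs.1 h0), max_eq_right (by nlinarith [hs.1, hs.2])]
  rw [e1, poly_int]
  ring

lemma chi_big {α : ℝ} (h2 : 2 ≤ α) : chi α = 1 / α ^ 2 := by
  have h0 : 0 < α := by linarith
  unfold chi
  have hc : Continuous fun s => s * tr 1 (s * α) := by
    have := tr_cont 1
    fun_prop
  have hle : 1 / α ≤ 1 / 2 := by
    rw [div_le_div_iff₀ h0 (by norm_num)]
    linarith
  rw [← intervalIntegral.integral_add_adjacent_intervals (b := 1 / α) (hc.intervalIntegrable _ _)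
    (hc.intervalIntegrable _ _)]
  have e1 : ∫ s in (0 : ℝ)..(1 / α), s * tr 1 (s * α) =
      ∫ s in (0 : ℝ)..(1 / α), s * (1 - s * α) := by
    refine intervalIntegral.integral_congr fun s hs => ?_
    rw [uIcc_of_le (by positivity)] at hs
    show s * tr 1 (s * α) = _
    have : s * α ≤ 1 := by
      calc s * α ≤ 1 / α * α := by gcongr; exact hs.2
        _ = 1 := by field_simp
    rw [tr1_eq, abs_of_nonneg (mul_nonneg hs.1 h0.le), max_eq_right (by linarith)]
  have e2 : ∫ s in (1 / α)..(1 / 2), s * tr 1 (s * α) = 0 := by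
    rw [intervalIntegral.integral_congr (g := fun _ => (0 : ℝ))]
    · simp
    · intro s hs
      rw [uIcc_of_le hle] at hs
      show s * tr 1 (s * α) = 0
      have : 1 ≤ s * α := by
        calc (1 : ℝ) = 1 / α * α := by field_simp
          _ ≤ s * α := by gcongr; exact hs.1
      rw [tr_supp one_pos _ (by rw [abs_of_nonneg (by linarith)]; exact this), mul_zero]
  rw [e1, e2, poly_int]
  field_simp
  ring

/-- `χ ≤ α⁻²` -/
lemma chi_le {α : ℝ} (h0 : 0 < α) : chi α ≤ 1 / α ^ 2 := by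
  rcases le_total 2 α with h | h
  · exact (chi_big h).le
  · rw [chi_small h0.le h, le_div_iff₀ (by positivity)]
    have e : 1 - (3 / 4 - α / 4) * α ^ 2 = (2 - α) ^ 2 * (1 + α) / 4 := by ring
    have h2 : 0 ≤ (2 - α) ^ 2 * (1 + α) / 4 := by positivity
    linarith

lemma comp_cos {s : ℝ} (hs : 0 < s) (x : ℝ) :
    ∫ α, s * tr 1 (s * α) * Real.cos (2 * Real.pi * α * x) = fl (tr 1) (x / s) := by
  have h := Measure.integral_comp_mul_left
    (fun t => tr 1 t * Real.cos (2 * Real.pi * t * (x / s))) s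
  unfold fl
  rw [abs_of_pos (inv_pos.2 hs)] at h
  have e : ∀ α : ℝ, s * tr 1 (s * α) * Real.cos (2 * Real.pi * α * x) =
      s * (tr 1 (s * α) * Real.cos (2 * Real.pi * (s * α) * (x / s))) := by
    intro α
    rw [mul_assoc]
    congr 3
    field_simp
  simp_rw [e]
  rw [integral_const_mul, h, smul_eq_mul, ← mul_assoc, mul_inv_cancel₀ hs.ne', one_mul]

lemma comp_int {s : ℝ} (hs : 0 < s) (x : ℝ) :
    Integrable fun α => s * tr 1 (s * α) * Real.cos (2 * Real.pi * α * x) := by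
  have hb : Integrable fun α => s * tr 1 (s * α) :=
    ((integrable_comp_mul_left_iff (tr 1) hs.ne').2 (tr_int one_pos)).const_mul s
  refine hb.mul_bdd (c := 1) ?_ (ae_of_all _ fun α => ?_)
  · apply Continuous.aestronglyMeasurable
    fun_prop
  · rw [Real.norm_eq_abs]
    exact Real.abs_cos_le_one _

lemma comp_norm {s : ℝ} (hs : 0 < s) (x : ℝ) :
    ∫ α, ‖s * tr 1 (s * α) * Real.cos (2 * Real.pi * α * x)‖ ≤ 1 := by
  have h0 := comp_cos hs 0
  rw [zero_div, fl_tr_zero one_pos] at h0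
  refine le_trans ?_ h0.le
  refine integral_mono_of_nonneg (ae_of_all _ fun x => norm_nonneg _) (comp_int hs 0)
    (ae_of_all _ fun α => ?_)
  show ‖s * tr 1 (s * α) * Real.cos (2 * Real.pi * α * x)‖ ≤ s * tr 1 (s * α) *
    Real.cos (2 * Real.pi * α * 0)
  rw [mul_zero, Real.cos_zero, mul_one, Real.norm_eq_abs, abs_mul]
  have h1 : 0 ≤ s * tr 1 (s * α) := mul_nonneg hs.le (tr1_nn _)
  rw [abs_of_nonneg h1]
  exact mul_le_of_le_one_right h1 (Real.abs_cos_le_one _)

lemma prod_int (x : ℝ) : Integrable (fun p : ℝ × ℝ =>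
    p.1 * tr 1 (p.1 * p.2) * Real.cos (2 * Real.pi * p.2 * x))
    ((volume.restrict (Ioc (0 : ℝ) (1 / 2))).prod volume) := by
  have hm : AEStronglyMeasurable (fun p : ℝ × ℝ =>
      p.1 * tr 1 (p.1 * p.2) * Real.cos (2 * Real.pi * p.2 * x))
      ((volume.restrict (Ioc (0 : ℝ) (1 / 2))).prod volume) := by
    have := tr_cont 1
    apply Continuous.aestronglyMeasurable
    fun_prop
  rw [integrable_prod_iff hm]
  constructor
  · rw [ae_restrict_iff' measurableSet_Ioc]
    exact ae_of_all _ fun s hs => comp_int hs.1 x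
  · refine (integrable_const (1 : ℝ)).mono' hm.norm.integral_prod_right' ?_
    · rw [ae_restrict_iff' measurableSet_Ioc]
      refine ae_of_all _ fun s hs => ?_
      rw [Real.norm_eq_abs, abs_of_nonneg (integral_nonneg fun α => norm_nonneg _)]
      exact comp_norm hs.1 x

lemma chi_cos (α x : ℝ) : chi α * Real.cos (2 * Real.pi * α * x) =
    6 * ∫ s in Ioc (0 : ℝ) (1 / 2), s * tr 1 (s * α) * Real.cos (2 * Real.pi * α * x) := by
  unfold chi
  rw [intervalIntegral.integral_of_le (by norm_num), mul_assoc, ← integral_mul_const]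

lemma chi_int : Integrable chi := by
  have h := ((prod_int 0).swap).integral_prod_left
  have := h.const_mul 6
  refine this.congr (ae_of_all _ fun α => ?_)
  have h2 := chi_cos α 0
  rw [mul_zero, Real.cos_zero, mul_one] at h2
  rw [h2]
  simp

/-- the transform of `χ` -/
lemma chi_fl (x : ℝ) : fl chi x = 6 * ∫ s in Ioc (0 : ℝ) (1 / 2), fl (tr 1) (x / s) := by
  unfold fl
  simp_rw [chi_cos]
  rw [integral_const_mul]
  congr 1
  rw [← integral_integral_swap (f := fun s α => s * tr 1 (s * α) * Real.cos (2 * Real.pi * α * x))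
    (prod_int x)]
  refine setIntegral_congr_fun measurableSet_Ioc fun s hs => ?_
  exact comp_cos hs.1 x

lemma chi_fl_nonneg (x : ℝ) : 0 ≤ fl chi x := by
  rw [chi_fl]
  exact mul_nonneg (by norm_num) (integral_nonneg fun s => fl_tr_nonneg one_pos _)

/-- the weight at scale `h` -/
noncomputable def ch (h α : ℝ) : ℝ := 1 / h ^ 2 * chi (α / h)

lemma ch_cont (h : ℝ) : Continuous (ch h) := by
  unfold ch
  have := chi_cont
  fun_prop

lemma ch_even (h α : ℝ) : ch h (-α) = ch h α := by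
  unfold ch
  rw [neg_div, chi_even]

lemma ch_nonneg (h α : ℝ) : 0 ≤ ch h α := mul_nonneg (by positivity) (chi_nonneg _)

lemma ch_int {h : ℝ} (hh : 0 < h) : Integrable (ch h) := by
  unfold ch
  exact (chi_int.comp_div hh.ne').const_mul _

lemma ch_le {h : ℝ} (hh : 0 < h) {α : ℝ} (h0 : 0 < α) : ch h α ≤ 1 / α ^ 2 := by
  unfold ch
  have h1 := chi_le (div_pos h0 hh)
  calc 1 / h ^ 2 * chi (α / h) ≤ 1 / h ^ 2 * (1 / (α / h) ^ 2) := by gcongr
    _ = 1 / α ^ 2 := by field_simp

lemma ch_small {h : ℝ} (hh : 0 < h) {α : ℝ} (h0 : 0 ≤ α) (h2 : α ≤ 2 * h) :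
    ch h α = 1 / h ^ 2 * (3 / 4 - α / h / 4) := by
  unfold ch
  rw [chi_small (by positivity) ((div_le_iff₀ hh).2 h2)]

lemma ch_fl_nonneg {h : ℝ} (hh : 0 < h) (x : ℝ) : 0 ≤ fl (ch h) x := by
  have h1 := Measure.integral_comp_div (fun t => chi t * Real.cos (2 * Real.pi * t * (h * x))) h
  have h2 : fl (ch h) x = 1 / h ^ 2 * (|h| * fl chi (h * x)) := by
    unfold fl
    rw [← smul_eq_mul |h|, ← h1, ← integral_const_mul]
    refine integral_congr_ae (ae_of_all _ fun α => ?_)
    show ch h α * _ = _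
    unfold ch
    have : 2 * Real.pi * (α / h) * (h * x) = 2 * Real.pi * α * x := by field_simp
    simp only [this]
    ring
  rw [h2]
  have := chi_fl_nonneg (h * x)
  positivity

/-- modulation on the other side -/
lemma fl_mul_cos {φ : ℝ → ℝ} (hφ : Integrable φ) (β x : ℝ) :
    fl (fun α => φ α * Real.cos (2 * Real.pi * β * α)) x = (fl φ (x - β) + fl φ (x + β)) / 2 := by
  have hi : ∀ y, Integrable fun α => φ α * Real.cos (2 * Real.pi * α * y) := by
    intro y
    refine hφ.mul_bdd (c := 1) ?_ (ae_of_all _ fun α => ?_)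
    · apply Continuous.aestronglyMeasurable
      fun_prop
    · rw [Real.norm_eq_abs]
      exact Real.abs_cos_le_one _
  unfold fl
  rw [← integral_add (hi _) (hi _), ← integral_div]
  refine integral_congr_ae (ae_of_all _ fun α => ?_)
  show φ α * Real.cos (2 * Real.pi * β * α) * Real.cos (2 * Real.pi * α * x) =
    (φ α * Real.cos (2 * Real.pi * α * (x - β)) + φ α * Real.cos (2 * Real.pi * α * (x + β))) / 2
  have h1 : 2 * Real.pi * α * (x - β) = 2 * Real.pi * α * x - 2 * Real.pi * β * α := by ring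
  have h2 : 2 * Real.pi * α * (x + β) = 2 * Real.pi * α * x + 2 * Real.pi * β * α := by ring
  rw [h1, h2, Real.cos_sub, Real.cos_add]
  ring

lemma mod_int {φ : ℝ → ℝ} (hφ : Integrable φ) (β : ℝ) :
    Integrable fun α => φ α * Real.cos (2 * Real.pi * β * α) := by
  refine hφ.mul_bdd (c := 1) ?_ (ae_of_all _ fun α => ?_)
  · apply Continuous.aestronglyMeasurable
    fun_prop
  · rw [Real.norm_eq_abs]
    exact Real.abs_cos_le_one _

lemma mod_fl_nonneg {φ : ℝ → ℝ} (hφ : Integrable φ) (h0 : ∀ x, 0 ≤ fl φ x) (β x : ℝ) :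
    0 ≤ fl (fun α => φ α * Real.cos (2 * Real.pi * β * α)) x := by
  rw [fl_mul_cos hφ]
  have := h0 (x - β)
  have := h0 (x + β)
  linarith

end Run7.h719.NV
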