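import Pool.Agent.Run7.h719.PC.Asm
import Pool.Agent.Run7.h719.NV.Pol

/-!
# A majorant of `α⁻² - χ_h(α) / 2` by tents
-/

open MeasureTheory Set Filter Topology

namespace Run7.h719.NV

open Run7.h719.PC

lemma tail_sum (n : ℕ) {u : ℝ} (h1 : 1 ≤ u) (h2 : u ≤ 2) :
    ∑ k ∈ Finset.range n, 1 / ((k : ℝ) + 2) ^ 2 * tt 1 (u - (k + 2)) ≤ 1 / 4 * (u - 1) := by
  cases n with
  | zero =>
    simp only [Finset.range_zero, Finset.sum_empty]
    linarith
  | succ m =>
    rw [Finset.sum_range_succ']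
    have h0 : ∑ k ∈ Finset.range m, 1 / (((k + 1 : ℕ) : ℝ) + 2) ^ 2 *
        tt 1 (u - (((k + 1 : ℕ) : ℝ) + 2)) = 0 := by
      refine Finset.sum_eq_zero fun k _ => ?_
      have hk : (0 : ℝ) ≤ k := Nat.cast_nonneg k
      have : tt 1 (u - (((k + 1 : ℕ) : ℝ) + 2)) = 0 := by
        unfold tt
        push_cast
        rw [abs_of_nonpos (by linarith), max_eq_left (by linarith)]
      rw [this, mul_zero]
    have e : tt 1 (u - (((0 : ℕ) : ℝ) + 2)) = u - 1 := by
      unfold tt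
      push_cast
      rw [abs_of_nonpos (by linarith), max_eq_right (by linarith)]
      ring
    rw [h0, e]
    norm_num

lemma sq_maj2 (n : ℕ) {u : ℝ} (h1 : 1 ≤ u) (h2 : u ≤ n + 1) :
    1 / u ^ 2 - 1 / 2 * chi u ≤ 13 / 18 * tt 1 (u - 1 / 2) + 7 / 18 * tt 1 (u - 1) +
      1 / 2 * ∑ k ∈ Finset.range n, 1 / ((k : ℝ) + 2) ^ 2 * tt 1 (u - (k + 2)) := by
  have h := sq_maj n u h1 h2
  rcases le_total u 2 with h3 | h3
  · have h4 := tail_sum n h1 h3
    have e1 : tt 1 (u - 1) = 2 - u := by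
      unfold tt
      rw [abs_of_nonneg (by linarith), max_eq_right (by linarith)]
      ring
    rw [chi_small (by linarith) h3]
    rw [e1] at h ⊢
    linarith
  · have e0 : tt 1 (u - 1 / 2) = 0 := by
      unfold tt
      rw [abs_of_nonneg (by linarith), max_eq_left (by linarith)]
    have e1 : tt 1 (u - 1) = 0 := by
      unfold tt
      rw [abs_of_nonneg (by linarith), max_eq_left (by linarith)]
    rw [chi_big h3]
    rw [e0, e1] at h ⊢
    linarith

/-- the majorant -/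
noncomputable def WV (h : ℝ) (n : ℕ) (α : ℝ) : ℝ :=
  1 / h ^ 3 * (13 / 18 * tt h (α - h / 2) + 7 / 18 * tt h (α - h) +
    1 / 2 * ∑ k ∈ Finset.range n, 1 / ((k : ℝ) + 2) ^ 2 * tt h (α - (k + 2) * h))

/-- the function to be bounded -/
noncomputable def aa (h α : ℝ) : ℝ := 1 / α ^ 2 - 1 / 2 * ch h α

lemma WV_ge {h : ℝ} (hh : 0 < h) (n : ℕ) {α : ℝ} (h1 : h ≤ α) (h2 : α ≤ (n + 1) * h) :
    aa h α ≤ WV h n α := by
  have h3 := sq_maj2 n ((one_le_div hh).2 h1) ((div_le_iff₀ hh).2 h2)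
  have e1 : tt h (α - h / 2) = h * tt 1 (α / h - 1 / 2) := by
    rw [← tt_scale hh]
    congr 1
    ring
  have e2 : tt h (α - h) = h * tt 1 (α / h - 1) := by
    rw [← tt_scale hh]
    congr 1
    ring
  unfold WV aa ch
  rw [e1, e2]
  simp_rw [tt_scale hh]
  have e3 : ∑ k ∈ Finset.range n, 1 / ((k : ℝ) + 2) ^ 2 * (h * tt 1 (α / h - (k + 2))) =
      h * ∑ k ∈ Finset.range n, 1 / ((k : ℝ) + 2) ^ 2 * tt 1 (α / h - (k + 2)) := by
    rw [Finset.mul_sum]
    exact Finset.sum_congr rfl fun k _ => by ring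
  rw [e3]
  have e4 : 1 / h ^ 3 * (13 / 18 * (h * tt 1 (α / h - 1 / 2)) + 7 / 18 * (h * tt 1 (α / h - 1)) +
      1 / 2 * (h * ∑ k ∈ Finset.range n, 1 / ((k : ℝ) + 2) ^ 2 * tt 1 (α / h - (k + 2)))) =
      1 / h ^ 2 * (13 / 18 * tt 1 (α / h - 1 / 2) + 7 / 18 * tt 1 (α / h - 1) +
      1 / 2 * ∑ k ∈ Finset.range n, 1 / ((k : ℝ) + 2) ^ 2 * tt 1 (α / h - (k + 2))) := by
    field_simp
  rw [e4]
  have e5 : 1 / α ^ 2 - 1 / 2 * (1 / h ^ 2 * chi (α / h)) =
      1 / h ^ 2 * (1 / (α / h) ^ 2 - 1 / 2 * chi (α / h)) := by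
    have : 0 < α := by linarith
    field_simp
  rw [e5]
  gcongr

lemma WV_cont (h : ℝ) (n : ℕ) : Continuous (WV h n) := by
  unfold WV
  have := tt_cont h
  fun_prop

lemma WV_total {f : ℝ → ℝ} (hf : Continuous f) (h : ℝ) (n : ℕ) :
    Integrable (fun α => WV h n α * f α) ∧
    ∫ α, WV h n α * f α = 1 / h ^ 3 * (13 / 18 * TM h f (h / 2) + 7 / 18 * TM h f h +
      1 / 2 * ∑ k ∈ Finset.range n, 1 / ((k : ℝ) + 2) ^ 2 * TM h f ((k + 2) * h)) := by
  have i1 := (tent_int hf h (h / 2)).const_mul (13 / 18)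
  have i2 := (tent_int hf h h).const_mul (7 / 18)
  have i3 : ∀ k ∈ Finset.range n, Integrable fun α => 1 / ((k : ℝ) + 2) ^ 2 *
      (tt h (α - (k + 2) * h) * f α) := fun k _ =>
    (tent_int hf h ((k + 2) * h)).const_mul (1 / ((k : ℝ) + 2) ^ 2)
  have i4 := (integrable_finsetSum _ i3).const_mul (1 / 2)
  have e : (fun α => WV h n α * f α) = fun α => 1 / h ^ 3 * ((13 / 18 * (tt h (α - h / 2) * f α) +
      7 / 18 * (tt h (α - h) * f α)) + 1 / 2 * ∑ k ∈ Finset.range n, 1 / ((k : ℝ) + 2) ^ 2 *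
      (tt h (α - (k + 2) * h) * f α)) := by
    funext α
    unfold WV
    have : ∑ k ∈ Finset.range n, 1 / ((k : ℝ) + 2) ^ 2 * (tt h (α - (k + 2) * h) * f α) =
        (∑ k ∈ Finset.range n, 1 / ((k : ℝ) + 2) ^ 2 * tt h (α - (k + 2) * h)) * f α := by
      rw [Finset.sum_mul]
      exact Finset.sum_congr rfl fun k _ => by ring
    rw [this]
    ring
  rw [e]
  have i12 : Integrable fun α => 13 / 18 * (tt h (α - h / 2) * f α) +
      7 / 18 * (tt h (α - h) * f α) := i1.add i2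
  refine ⟨(i12.add i4).const_mul _, ?_⟩
  rw [integral_const_mul, integral_add i12 i4, integral_add i1 i2, integral_const_mul _ _,
    integral_const_mul, integral_const_mul, integral_finsetSum _ i3]
  simp_rw [integral_const_mul]
  rfl

lemma aa_nonneg {h : ℝ} (hh : 0 < h) {α : ℝ} (h0 : 0 < α) : 0 ≤ aa h α := by
  unfold aa
  have h1 := ch_le hh h0
  have h2 := ch_nonneg h α
  linarith

lemma aa_ii {f : ℝ → ℝ} (hf : Continuous f) {h a b : ℝ} (ha : 0 < a) (hab : a ≤ b) :
    IntervalIntegrable (fun α => aa h α * f α) volume a b := by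
  apply ContinuousOn.intervalIntegrable
  rw [uIcc_of_le hab]
  refine ContinuousOn.mul ?_ hf.continuousOn
  unfold aa
  refine ContinuousOn.sub ?_ ((ch_cont h).const_mul _).continuousOn
  refine continuousOn_const.div (by fun_prop) fun α hα => ?_
  have : 0 < α := by linarith [hα.1]
  positivity

/-- the upper bound for the tail -/
theorem maj2 {f : ℝ → ℝ} (hf : Continuous f) (f0 : ∀ x, 0 ≤ f x) {h A : ℝ} (hh : 0 < h)
    (hA : ∀ b, TM h f b ≤ A) (n : ℕ) :
    ∫ α in h..((n + 1) * h), aa h α * f α ≤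
      1 / h ^ 3 * ((10 / 9 + 1 / 2 * ∑ k ∈ Finset.range n, 1 / ((k : ℝ) + 2) ^ 2) * A) -
      ∫ α in (-(h / 2))..h, WV h 0 α * f α := by
  obtain ⟨hi, ht⟩ := WV_total hf h n
  have hn : (0 : ℝ) ≤ n := Nat.cast_nonneg n
  have hle : h ≤ (n + 1) * h := by nlinarith
  have hc : Continuous fun α => WV h n α * f α := (WV_cont h n).mul hf
  have h1 : ∫ α, WV h n α * f α ≤
      1 / h ^ 3 * ((10 / 9 + 1 / 2 * ∑ k ∈ Finset.range n, 1 / ((k : ℝ) + 2) ^ 2) * A) := by
    rw [ht]
    have hs : ∑ k ∈ Finset.range n, 1 / ((k : ℝ) + 2) ^ 2 * TM h f ((k + 2) * h) ≤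
        (∑ k ∈ Finset.range n, 1 / ((k : ℝ) + 2) ^ 2) * A := by
      rw [Finset.sum_mul]
      exact Finset.sum_le_sum fun k _ => mul_le_mul_of_nonneg_left (hA _) (by positivity)
    refine mul_le_mul_of_nonneg_left ?_ (by positivity)
    have a1 := hA (h / 2)
    have a2 := hA h
    nlinarith
  have hW0 : ∀ α, 0 ≤ WV h n α := fun α => by
    unfold WV
    have : ∀ u, 0 ≤ tt h u := tt_nonneg h
    have h2 : 0 ≤ ∑ k ∈ Finset.range n, 1 / ((k : ℝ) + 2) ^ 2 * tt h (α - (k + 2) * h) :=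
      Finset.sum_nonneg fun k _ => mul_nonneg (by positivity) (this _)
    have h3 := this (α - h / 2)
    have h4 := this (α - h)
    positivity
  have h2 : ∫ α in (-(h / 2))..((n + 1) * h), WV h n α * f α ≤ ∫ α, WV h n α * f α := by
    rw [intervalIntegral.integral_of_le (by linarith)]
    exact setIntegral_le_integral hi (ae_of_all _ fun α => mul_nonneg (hW0 α) (f0 α))
  rw [← intervalIntegral.integral_add_adjacent_intervals (b := h) (hc.intervalIntegrable _ _)
    (hc.intervalIntegrable _ _)] at h2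
  have h3 : ∫ α in (-(h / 2))..h, WV h 0 α * f α ≤ ∫ α in (-(h / 2))..h, WV h n α * f α := by
    refine intervalIntegral.integral_mono_on (by linarith)
      (((WV_cont h 0).mul hf).intervalIntegrable _ _) (hc.intervalIntegrable _ _) fun α _ => ?_
    apply mul_le_mul_of_nonneg_right _ (f0 α)
    unfold WV
    apply mul_le_mul_of_nonneg_left _ (by positivity)
    rw [Finset.sum_range_zero]
    have : 0 ≤ ∑ k ∈ Finset.range n, 1 / ((k : ℝ) + 2) ^ 2 * tt h (α - (k + 2) * h) :=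
      Finset.sum_nonneg fun k _ => mul_nonneg (by positivity) (tt_nonneg _ _)
    linarith
  have h4 : ∫ α in h..((n + 1) * h), aa h α * f α ≤ ∫ α in h..((n + 1) * h), WV h n α * f α := by
    refine intervalIntegral.integral_mono_on hle (aa_ii hf hh hle) (hc.intervalIntegrable _ _)
      fun α hα => ?_
    exact mul_le_mul_of_nonneg_right (WV_ge hh n hα.1 hα.2) (f0 α)
  linarith

/-- the integral over the known part -/
lemma known2 {f : ℝ → ℝ} (hf : Continuous f) (fe : ∀ x, f (-x) = f x) {h : ℝ} (hh : 0 < h) :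
    ∫ α in (-(h / 2))..h, WV h 0 α * f α =
      1 / h ^ 3 * (13 / 12 * h * (∫ α in (0 : ℝ)..h, f α) - 13 / 36 * h * (∫ α in (0 : ℝ)..(h / 2), f α)
        - 1 / 3 * (∫ α in (0 : ℝ)..h, α * f α) + 13 / 18 * ∫ α in (0 : ℝ)..(h / 2), α * f α) := by
  have hk := known hf fe hh
  have c1 : Continuous fun α => WW h 0 α * f α := (WW_cont h 0).mul hf
  have c2 : Continuous fun α => 1 / h ^ 3 * (1 / 4) * (tt h (α - h) * f α) := by
    have := tt_cont h
    fun_prop
  have e1 : ∫ α in (-(h / 2))..h, WV h 0 α * f α = ∫ α in (-(h / 2))..h,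
      (WW h 0 α * f α - 1 / h ^ 3 * (1 / 4) * (tt h (α - h) * f α)) := by
    refine intervalIntegral.integral_congr fun α _ => ?_
    show WV h 0 α * f α = _
    unfold WV WW
    rw [Finset.sum_range_zero]
    ring
  have e2 : ∫ α in (-(h / 2))..h, tt h (α - h) * f α = ∫ α in (0 : ℝ)..h, α * f α := by
    have c3 : Continuous fun α => tt h (α - h) * f α := by
      have := tt_cont h
      fun_prop
    rw [← intervalIntegral.integral_add_adjacent_intervals (b := 0) (c3.intervalIntegrable _ _)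
      (c3.intervalIntegrable _ _)]
    have e3 : ∫ α in (-(h / 2))..0, tt h (α - h) * f α = 0 := by
      rw [intervalIntegral.integral_congr (g := fun _ => (0 : ℝ))]
      · simp
      · intro α hα
        rw [uIcc_of_le (by linarith)] at hα
        show tt h (α - h) * f α = 0
        unfold tt
        rw [abs_of_nonpos (by linarith [hα.2]), max_eq_left (by linarith [hα.2]), zero_mul]
    rw [e3, zero_add]
    refine intervalIntegral.integral_congr fun α hα => ?_
    rw [uIcc_of_le hh.le] at hα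
    show tt h (α - h) * f α = _
    unfold tt
    rw [abs_of_nonpos (by linarith [hα.2]), max_eq_right (by linarith [hα.1])]
    ring
  rw [e1, intervalIntegral.integral_sub (c1.intervalIntegrable _ _) (c2.intervalIntegrable _ _),
    intervalIntegral.integral_const_mul, e2, hk]
  ring

/-- the upper bound over `(h, ∞)` -/
lemma up_Ioi2 {f : ℝ → ℝ} (hf : Continuous f) (f0 : ∀ x, 0 ≤ f x) {h A : ℝ} (hh : 0 < h)
    (hA0 : 0 ≤ A) (hA : ∀ b, TM h f b ≤ A) :
    IntegrableOn (fun α => aa h α * f α) (Ioi h) ∧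
    ∫ α in Ioi h, aa h α * f α ≤
      1 / h ^ 3 * ((11 / 18 + Real.pi ^ 2 / 12) * A) - ∫ α in (-(h / 2))..h, WV h 0 α * f α := by
  set U := 1 / h ^ 3 * ((11 / 18 + Real.pi ^ 2 / 12) * A) - ∫ α in (-(h / 2))..h, WV h 0 α * f α
    with hU
  have h1 : ∀ n : ℕ, ∫ α in h..((n + 1) * h), aa h α * f α ≤ U := by
    intro n
    refine (maj2 hf f0 hh hA n).trans ?_
    rw [hU]
    have := sum_inv n
    have h2 : (10 / 9 + 1 / 2 * ∑ k ∈ Finset.range n, 1 / ((k : ℝ) + 2) ^ 2) * A ≤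
        (11 / 18 + Real.pi ^ 2 / 12) * A := by
      apply mul_le_mul_of_nonneg_right _ hA0
      linarith
    have h3 : 1 / h ^ 3 * ((10 / 9 + 1 / 2 * ∑ k ∈ Finset.range n, 1 / ((k : ℝ) + 2) ^ 2) * A) ≤
        1 / h ^ 3 * ((11 / 18 + Real.pi ^ 2 / 12) * A) :=
      mul_le_mul_of_nonneg_left h2 (by positivity)
    linarith
  have hb : Tendsto (fun n : ℕ => ((n : ℝ) + 1) * h) atTop atTop :=
    (tendsto_natCast_atTop_atTop.atTop_add tendsto_const_nhds).atTop_mul_const hh
  have hle : ∀ n : ℕ, h ≤ ((n : ℝ) + 1) * h := fun n => by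
    have : (0 : ℝ) ≤ n := Nat.cast_nonneg n
    nlinarith
  have hi : IntegrableOn (fun α => aa h α * f α) (Ioi h) := by
    refine integrableOn_Ioi_of_intervalIntegral_norm_bounded (l := atTop)
      (b := fun n : ℕ => ((n : ℝ) + 1) * h) U h (fun n => ?_) hb (Eventually.of_forall fun n => ?_)
    · exact (aa_ii hf hh (hle n)).1
    · refine le_trans (le_of_eq ?_) (h1 n)
      refine intervalIntegral.integral_congr fun α hα => ?_
      rw [uIcc_of_le (hle n)] at hα
      exact Real.norm_of_nonneg (mul_nonneg (aa_nonneg hh (by linarith [hα.1])) (f0 α))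
  refine ⟨hi, le_of_tendsto (intervalIntegral_tendsto_integral_Ioi h hi hb) ?_⟩
  exact Eventually.of_forall h1

end Run7.h719.NV
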