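import Pool.Agent.Run7.h719.NV.Maj

/-!
# The weight `sin² (πβα) / (π² α²)`
-/

open MeasureTheory Set Filter Topology

namespace Run7.h719.NV

open Pool.Agent.Y749.Rig

/-- the weight -/
noncomputable def wb (β α : ℝ) : ℝ := β ^ 2 * fl (tr β) α

lemma wb_eq {β : ℝ} (hβ : 0 < β) {α : ℝ} (hα : α ≠ 0) :
    wb β α = 1 / (2 * Real.pi ^ 2) * ((1 - Real.cos (2 * Real.pi * β * α)) / α ^ 2) := by
  unfold wb
  rw [fl_tr hβ hα]
  have h4 : Real.cos (2 * Real.pi * β * α) = 1 - 2 * Real.sin (Real.pi * β * α) ^ 2 := by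
    rw [show 2 * Real.pi * β * α = 2 * (Real.pi * β * α) by ring, Real.cos_two_mul,
      Real.cos_sq']
    ring
  rw [h4]
  have hpi := Real.pi_pos
  field_simp
  ring

lemma wb_cont {β : ℝ} (hβ : 0 < β) : Continuous (wb β) :=
  continuous_const.mul (fl_cont (tr_int hβ))

lemma wb_even (β α : ℝ) : wb β (-α) = wb β α := by
  unfold wb
  rw [fl_even]

lemma wb_nonneg {β : ℝ} (hβ : 0 < β) (α : ℝ) : 0 ≤ wb β α :=
  mul_nonneg (sq_nonneg _) (fl_tr_nonneg hβ α)

lemma wb_int {β : ℝ} (hβ : 0 < β) : Integrable (wb β) := (fl_int (adm_tr hβ)).const_mul _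

lemma wb_zero {β : ℝ} (hβ : 0 < β) : wb β 0 = β ^ 2 := by
  unfold wb
  rw [fl_tr_zero hβ, mul_one]

lemma wb_total {β : ℝ} (hβ : 0 < β) : ∫ α, wb β α = β := by
  unfold wb
  rw [integral_const_mul, int_fl (adm_tr hβ)]
  unfold tr
  rw [abs_zero, zero_div, sub_zero, max_eq_right zero_le_one]
  field_simp

/-- the derivative of a cosine transform -/
lemma fl_deriv {ψ : ℝ → ℝ} (h : Integrable ψ) (h1 : Integrable fun α => α * ψ α) (x : ℝ) :
    HasDerivAt (fl ψ) (∫ α, -(2 * Real.pi) * (α * ψ α) * Real.sin (2 * Real.pi * α * x)) x := by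
  have hc : ∀ y, Integrable fun α => ψ α * Real.cos (2 * Real.pi * α * y) := by
    intro y
    refine h.mul_bdd (c := 1) ?_ (ae_of_all _ fun α => ?_)
    · apply Continuous.aestronglyMeasurable
      fun_prop
    · rw [Real.norm_eq_abs]
      exact Real.abs_cos_le_one _
  have hs : AEStronglyMeasurable (fun α => -(2 * Real.pi) * (α * ψ α) *
      Real.sin (2 * Real.pi * α * x)) volume := by
    refine ((h1.const_mul _).aestronglyMeasurable).mul ?_
    apply Continuous.aestronglyMeasurable
    fun_prop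
  refine (hasDerivAt_integral_of_dominated_loc_of_deriv_le (μ := volume)
    (F := fun y α => ψ α * Real.cos (2 * Real.pi * α * y))
    (F' := fun y α => -(2 * Real.pi) * (α * ψ α) * Real.sin (2 * Real.pi * α * y))
    (bound := fun α => 2 * Real.pi * |α * ψ α|) (s := univ) univ_mem
    (Eventually.of_forall fun y => (hc y).aestronglyMeasurable) (hc x) hs ?_ ?_ ?_).2
  · refine ae_of_all _ fun α y _ => ?_
    rw [Real.norm_eq_abs, abs_mul, abs_mul, abs_neg, abs_of_pos Real.two_pi_pos]
    exact mul_le_of_le_one_right (by positivity) (Real.abs_sin_le_one _)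
  · exact h1.abs.const_mul _
  · refine ae_of_all _ fun α y _ => ?_
    have h2 : HasDerivAt (fun y : ℝ => 2 * Real.pi * α * y) (2 * Real.pi * α) y := by
      simpa using (hasDerivAt_id y).const_mul (2 * Real.pi * α)
    have h3 := ((Real.hasDerivAt_cos (2 * Real.pi * α * y)).comp y h2).const_mul (ψ α)
    refine h3.congr_deriv ?_
    ring

lemma fl_deriv_cont {ψ : ℝ → ℝ} (h1 : Integrable fun α => α * ψ α) :
    Continuous fun x => ∫ α, -(2 * Real.pi) * (α * ψ α) * Real.sin (2 * Real.pi * α * x) := by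
  refine continuous_of_dominated
    (F := fun x α => -(2 * Real.pi) * (α * ψ α) * Real.sin (2 * Real.pi * α * x))
    (bound := fun α => 2 * Real.pi * |α * ψ α|) ?_ ?_ (h1.abs.const_mul _) ?_
  · intro x
    refine ((h1.const_mul _).aestronglyMeasurable).mul ?_
    apply Continuous.aestronglyMeasurable
    fun_prop
  · intro x
    refine ae_of_all _ fun α => ?_
    rw [Real.norm_eq_abs, abs_mul, abs_mul, abs_neg, abs_of_pos Real.two_pi_pos]
    exact mul_le_of_le_one_right (by positivity) (Real.abs_sin_le_one _)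
  · refine ae_of_all _ fun α => ?_
    fun_prop

lemma wb_deriv {β : ℝ} (hβ : 0 < β) : ∃ w' : ℝ → ℝ, Continuous w' ∧
    ∀ α, HasDerivAt (wb β) (w' α) α := by
  have h1 : Integrable fun α => α * tr β α := by
    refine Continuous.integrable_of_hasCompactSupport (continuous_id.mul (tr_cont β)) ?_
    exact (adm_tr hβ).hcs.mul_left
  refine ⟨_, (fl_deriv_cont h1).const_mul (β ^ 2), fun α => ?_⟩
  exact (fl_deriv (tr_int hβ) h1 α).const_mul (β ^ 2)

/-- the number variance of the Gaussian unitary ensemble, in terms of the weight -/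
lemma gue_eq {β : ℝ} (hβ : 0 < β) :
    β - 2 * (∫ x in (0 : ℝ)..β, (β - x) * (Real.sin (Real.pi * x) / (Real.pi * x)) ^ 2) =
      ∫ α, wb β α * mn α := by
  have h1 : ∫ x, fl (tr β) x * tr 1 x = ∫ x, tr β x * fl (tr 1) x :=
    parseval (tr_int hβ) (tr_int one_pos) (tr_even β) (tr_even 1)
  have i0 := wb_int hβ
  have i1 : Integrable fun α => wb β α * tr 1 α := by
    refine i0.mul_bdd (c := 1) (tr_cont 1).aestronglyMeasurable (ae_of_all _ fun x => ?_)
    rw [Real.norm_eq_abs, abs_of_nonneg (tr1_nn x)]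
    exact tr1_le x
  have e1 : ∫ α, wb β α * mn α = (∫ α, wb β α) - ∫ α, wb β α * tr 1 α := by
    rw [← integral_sub i0 i1]
    refine integral_congr_ae (ae_of_all _ fun α => ?_)
    show wb β α * mn α = wb β α - wb β α * tr 1 α
    rw [tr1_eq]
    unfold mn
    rcases le_or_gt 1 |α| with hx | hx
    · rw [max_eq_left (by linarith), min_eq_right hx]; ring
    · rw [max_eq_right (by linarith), min_eq_left hx.le]
      ring
  have e2 : ∫ α, wb β α * tr 1 α = β ^ 2 * ∫ x, tr β x * fl (tr 1) x := by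
    rw [← h1, ← integral_const_mul]
    refine integral_congr_ae (ae_of_all _ fun α => ?_)
    show wb β α * tr 1 α = _
    unfold wb
    ring
  have hce : ∀ x, tr β (-x) * fl (tr 1) (-x) = tr β x * fl (tr 1) x := fun x => by
    rw [tr_even, fl_even]
  have e3 : ∫ x, tr β x * fl (tr 1) x = 2 * ∫ x in Ioi (0 : ℝ), tr β x * fl (tr 1) x := by
    rw [← integral_comp_abs (f := fun x => tr β x * fl (tr 1) x)]
    refine integral_congr_ae (ae_of_all _ fun α => ?_)
    show _ = tr β |α| * fl (tr 1) |α|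
    rcases le_total 0 α with h | h
    · rw [abs_of_nonneg h]
    · rw [abs_of_nonpos h, tr_even, fl_even]
  have hci : Integrable fun x => tr β x * fl (tr 1) x := by
    refine Continuous.integrable_of_hasCompactSupport
      ((tr_cont β).mul (fl_cont (tr_int one_pos))) ?_
    exact (adm_tr hβ).hcs.mul_right
  have e4 := intervalIntegral.integral_interval_add_Ioi (a := 0) (b := β) (μ := volume)
    (f := fun x => tr β x * fl (tr 1) x) hci.integrableOn hci.integrableOn
  have e5 : ∫ x in Ioi β, tr β x * fl (tr 1) x = 0 := by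
    rw [setIntegral_congr_fun (g := fun _ => (0 : ℝ)) measurableSet_Ioi]
    · simp
    · intro x hx
      have h1 : β < x := hx
      show tr β x * _ = 0
      rw [tr_supp hβ _ (by rw [abs_of_pos (by linarith)]; exact h1.le), zero_mul]
  have e6 : ∫ x in (0 : ℝ)..β, (β - x) * (Real.sin (Real.pi * x) / (Real.pi * x)) ^ 2 =
      β ^ 2 * ∫ x in (0 : ℝ)..β, tr β x * fl (tr 1) x := by
    rw [← intervalIntegral.integral_const_mul]
    refine intervalIntegral.integral_congr_ae ?_
    have : ∀ᵐ x : ℝ, x ≠ 0 := by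
      rw [ae_iff]
      simp
    filter_upwards [this] with x hx hx2
    rw [uIoc_of_le hβ.le] at hx2
    rw [fl_tr one_pos hx, mul_one, tr_eq hβ hx2.1.le hx2.2]
    field_simp
  rw [e1, e2, e3, ← e4, e5, add_zero, wb_total hβ, e6]
  ring

end Run7.h719.NV
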